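import Mathlib
import Pool.Agent.W964.Wd.Td.Gen

/-!
The number of the planted structures that are noticed by a parallel machine whose input words
depend on few blocks.
-/

set_option linter.unusedSectionVars false

namespace Pool.Agent.W964.Wd

open Finset H568R2 H592R3 Pool.Agent.W964.Pram

section CountD
variable {W J : Type} {P : ℕ} {I : Type*} [Fintype I] [DecidableEq I] {K : Type*} [Fintype K]
  {k : ℕ}

open Classical in
/-- The weighted number of the planted structures that are noticed. -/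
theorem mach_weightedD (M : Machine W J P) (σ : (I → Bool) → (J → W))
    [Fintype J] {Dg : ℕ} (hσ : ∀ j, MT Dg (fun x => σ x j)) (v : K → Fin k → I)
    (hv : ∀ κ, Function.Injective (v κ)) (H : Finset (Fin k)) {Kl h l T Wm L B : ℕ}
    (hh : 1 ≤ h) (hDh : Dg ≤ h) (hT1 : 1 ≤ T) (hK : ∀ q, (M.query q).length ≤ Kl) (hm1 : Kl + 2 ≤ 2 ^ l)
    (hm2 : P + 3 ≤ 2 ^ l) (hWm : h + (h * l + (h + T * (h * l))) ≤ Wm) (hL : 2 ≤ L)
    (hH : 1 ≤ H.card)
    (hB : ∀ V : Finset I, (univ.filter (fun κ => H.image (v κ) = V)).card ≤ B)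
    {q₀ y q c : ℝ} (hq₀ : 0 < q₀) (hq₀' : q₀ ≤ 1 / 3) (hq : q = (q₀ ^ 3) ^ T)
    (hy0 : 0 < y) (hy1 : y ≤ 1) (hcyq : 2 ≤ c * (y * q)) (hc : 1 ≤ c)
    (ψ : (I → Bool) → ℝ) (hψ0 : ∀ X, 0 ≤ ψ X) {B0 : ℝ} (hψ1 : ∀ X, ψ X ≤ B0) :
    Ex (vp (y / 2)) (fun X : I → Bool => ψ X * ∑ κ,
      if ∃ F, Fvi M Kl T L H.card F ∧ mb (fun U => F (σ (plant (v κ) U X))) H ≠ 0
        then (1 : ℝ) else 0) ≤
    c ^ H.card * ((Nb T (P + Fintype.card J) Wm L H.card * B : ℕ) : ℝ) * Ex (vp (y / 2)) ψ +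
      B0 * ((Fintype.card K : ℝ) * c ^ H.card) * Fl T P h Kl Wm q₀ := by
  have hq0 : 0 < q := by rw [hq]; positivity
  have hq1 : q ≤ 1 := by
    rw [hq]
    exact pow_le_one₀ (by positivity) (pow_le_one₀ hq₀.le (by linarith))
  have hWm1 : 1 ≤ Wm := by omega
  have h1 := plants_weighted v hv H
    (fun f => ∃ F, Fvi M Kl T L H.card F ∧ f = fun x => F (σ x))
    (fun Y ρ => Good M (fun x => σ (mask Y x)) Kl h l T ρ) (N := Nb T (P + Fintype.card J) Wm L H.card) (B := B) (by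
      intro Y ρ hG D
      have hσ' : ∀ j, MT Dg (fun x => σ (mask Y x) j) := fun j => MT.mask (hσ j) Y
      by_cases hkL : H.card < L
      · obtain ⟨Fam, hF1, hF2⟩ := (hG.mem M.out).fam D H.card
        refine ⟨Fam, ?_, ?_⟩
        · unfold Nb
          rw [if_pos hkL]
          refine hF1.trans (Nat.pow_le_pow_left ?_ _)
          omega
        · rintro f V ⟨F, (⟨h3, _, _⟩ | ⟨_, _, g, rfl⟩), rfl⟩ hV _ hne
          · omega
          · exact hF2 g V hV hne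
      · obtain ⟨Fam, hF1, hF2⟩ := machine_fam2D M (fun x => σ (mask Y x)) hσ' (by omega) hT1 hK hG hWm hWm1 D
          H.card (by omega)
        refine ⟨Fam, ?_, ?_⟩
        · unfold Nb
          rw [if_neg hkL]
          exact hF1
        · rintro f V ⟨F, (⟨_, _, h3⟩ | ⟨_, h4, _⟩), rfl⟩ hV hD hne
          · exact hF2 F V h3 hV hD hne
          · omega) hB hy0 hy1 hq0 hq1 hcyq hc (ε := Fl T P h Kl Wm q₀) (by
      intro Y
      have := machine_collapseD M (fun x => σ (mask Y x)) (fun j => MT.mask (hσ j) Y) hDh hK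
        hm1 hm2 hq₀.le hq₀' hWm T le_rfl
      rw [← hq] at this
      exact this) ψ hψ0 hψ1
  refine le_trans (le_of_eq ?_) h1
  congr 1
  funext X
  congr 1
  refine Finset.sum_congr rfl fun κ _ => ?_
  have : (∃ F, Fvi M Kl T L H.card F ∧ mb (fun U => F (σ (plant (v κ) U X))) H ≠ 0) ↔
      ∃ f, (∃ F, Fvi M Kl T L H.card F ∧ f = fun x => F (σ x)) ∧ mb (pz f (v κ) X) H ≠ 0 := by
    constructor
    · rintro ⟨F, hF, hne⟩
      exact ⟨_, ⟨F, hF, rfl⟩, hne⟩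
    · rintro ⟨_, ⟨F, hF, rfl⟩, hne⟩
      exact ⟨F, hF, hne⟩
  simp only [this]

end CountD

section BdD
variable {W J S : Type} {P : ℕ} {I : Type} [Fintype I] [DecidableEq I] [Fintype S]
  {K : Type} [Fintype K] {k : ℕ}

open Classical in
/-- Random arrays. -/
theorem bd_countD (M : Machine W J P) [Fintype J] (enc : (I → S) → (J → W))
    {lam : S → ℝ} (hl0 : ∀ a, 0 ≤ lam a) (hl1 : ∑ a, lam a = 1)
    (v : K → Fin k → I) (hv : ∀ κ, Function.Injective (v κ)) (H : Finset (Fin k))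
    {Kl h l T Wm L B : ℕ} (hh : 1 ≤ h) {Dg : ℕ} (hDh : Dg ≤ h) (hT1 : 1 ≤ T)
    (Gd : (I → S) → (I → S) → Prop)
    (hGd : ∀ Y0 Y1, Gd Y0 Y1 → ∀ j, MT Dg (fun x => enc (mix Y0 Y1 x) j)) {δ : ℝ}
    (hδ : Ex lam (fun Y0 : I → S => Ex lam (fun Y1 : I → S =>
      if ¬ Gd Y0 Y1 then (1 : ℝ) else 0)) ≤ δ) (hK : ∀ q, (M.query q).length ≤ Kl)
    (hm1 : Kl + 2 ≤ 2 ^ l) (hm2 : P + 3 ≤ 2 ^ l)
    (hWm : h + (h * l + (h + T * (h * l))) ≤ Wm) (hL : 2 ≤ L) (hH : 1 ≤ H.card)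
    (hB : ∀ V : Finset I, (univ.filter (fun κ => H.image (v κ) = V)).card ≤ B)
    {q₀ q c : ℝ} (hq₀ : 0 < q₀) (hq₀' : q₀ ≤ 1 / 3) (hq : q = (q₀ ^ 3) ^ T)
    (hcq : 2 ≤ c * q) (hc : 1 ≤ c) :
    ∑ κ, Ex lam (fun Y0 : I → S => Ex lam (fun Y1 : I → S =>
      if Bd M Kl T L enc (v κ) H Y0 Y1 then (1 : ℝ) else 0)) ≤
    (2 * c) ^ H.card * (((Nb T (P + Fintype.card J) Wm L H.card * B : ℕ) : ℝ) +
      (Fintype.card K : ℝ) * (Fl T P h Kl Wm q₀ + δ)) := by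
  obtain ⟨g, hg⟩ : ∃ g : K → (I → S) → (I → S) → (I → Bool) → ℝ, g = fun κ Y0 Y1 x =>
    if ∃ F, Fvi M Kl T L H.card F ∧ mb (fun U => F (enc (mix Y0 Y1 (plant (v κ) U x)))) H ≠ 0
      then (1 : ℝ) else 0 := ⟨_, rfl⟩
  have hg0 : ∀ κ Y0 Y1 x, 0 ≤ g κ Y0 Y1 x := by
    intro κ Y0 Y1 x; rw [hg]; dsimp only; split_ifs <;> norm_num
  have hv12 : ∀ b, 0 ≤ vp (1 / 2) b := vp_nonneg (by norm_num) (by norm_num)
  -- one structure
  have h1 : ∀ κ, (1 / 2 : ℝ) ^ H.card * Ex lam (fun Y0 : I → S => Ex lam (fun Y1 : I → S =>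
      if Bd M Kl T L enc (v κ) H Y0 Y1 then (1 : ℝ) else 0)) ≤
      Ex (vp (1 / 2)) (fun x : I → Bool => Ex lam (fun Y0 : I → S => Ex lam (fun Y1 : I → S =>
        g κ Y0 Y1 x))) := by
    intro κ
    obtain ⟨E, hE⟩ : ∃ E : ℝ, E = Ex lam (fun Y0 : I → S => Ex lam (fun Y1 : I → S =>
      if Bd M Kl T L enc (v κ) H Y0 Y1 then (1 : ℝ) else 0)) := ⟨_, rfl⟩
    rw [← hE]
    have h2 := Ex_indep (I := I) (vp_sum (1 / 2)) (fun b : Bool => b = false)
      (H.image (v κ)) (fun _ => (1 : ℝ)) (fun _ _ _ _ => rfl)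
    rw [Ex_const (vp_sum (1 / 2)), mul_one,
      Finset.card_image_of_injective _ (hv κ)] at h2
    have h3 : ∑ a ∈ univ.filter (fun b : Bool => b = false), vp (1 / 2) a = 1 / 2 := by
      rw [Finset.sum_filter, Fintype.sum_bool]
      simp [vp]
      norm_num
    rw [h3] at h2
    rw [← h2, mul_comm, ← Ex_smul]
    apply Ex_mono hv12
    intro x
    by_cases hx : ∀ i ∈ H.image (v κ), x i = false
    · rw [if_pos hx, mul_one, mul_one, hE, ← E2_swap lam x]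
      apply Ex_mono hl0
      intro Y0
      apply Ex_mono hl0
      intro Y1
      have h4 := bd_swap M Kl T L enc (v κ) H Y0 Y1 (x := x)
        (fun h hh => hx _ (Finset.mem_image_of_mem _ hh))
      rw [hg]
      dsimp only
      by_cases h5 : Bd M Kl T L enc (v κ) H (mix Y0 Y1 x) (mix Y1 Y0 x)
      · rw [if_pos h5, if_pos (h4.1 h5)]
      · rw [if_neg h5]
        split_ifs <;> norm_num
    · rw [if_neg hx, mul_zero, mul_zero]
      apply Ex_nonneg hl0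
      intro Y0
      apply Ex_nonneg hl0
      intro Y1
      exact hg0 κ Y0 Y1 x
  -- all structures
  obtain ⟨B0, hB0⟩ : ∃ B0 : ℝ, B0 = c ^ H.card *
      ((Nb T (P + Fintype.card J) Wm L H.card * B : ℕ) : ℝ) +
      (Fintype.card K : ℝ) * c ^ H.card * Fl T P h Kl Wm q₀ := ⟨_, rfl⟩
  have hFl0 : 0 ≤ Fl T P h Kl Wm q₀ := by unfold Fl; positivity
  have hB00 : 0 ≤ B0 := by rw [hB0]; positivity
  have h2 : ∀ Y0 Y1 : I → S, Ex (vp (1 / 2)) (fun x : I → Bool => ∑ κ, g κ Y0 Y1 x) ≤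
      B0 + (Fintype.card K : ℝ) * (if ¬ Gd Y0 Y1 then (1 : ℝ) else 0) := by
    intro Y0 Y1
    by_cases hY : Gd Y0 Y1
    · have h3 := mach_weightedD M (fun x => enc (mix Y0 Y1 x)) (hGd Y0 Y1 hY) v hv H
        (Kl := Kl) (h := h) (l := l) (T := T) (Wm := Wm) (L := L) (B := B) hh hDh hT1 hK hm1 hm2
        hWm hL hH hB
        (y := 1) hq₀ hq₀' hq one_pos le_rfl (by rw [one_mul]; exact hcq) hc (fun _ => 1)
        (fun _ => zero_le_one) (B0 := 1) (fun _ => le_rfl)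
      simp only [one_mul] at h3
      rw [Ex_const (vp_sum (1 / 2)), mul_one] at h3
      rw [if_neg (not_not.2 hY), mul_zero, add_zero, hg, hB0]
      exact h3
    · rw [if_pos hY, mul_one]
      have h3 : Ex (vp (1 / 2)) (fun x : I → Bool => ∑ κ, g κ Y0 Y1 x) ≤
          Ex (vp (1 / 2)) (fun _ : I → Bool => (Fintype.card K : ℝ)) := by
        apply Ex_mono hv12
        intro x
        have h4 : ∀ κ ∈ (univ : Finset K), g κ Y0 Y1 x ≤ 1 := by
          intro κ _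
          rw [hg]
          dsimp only
          split_ifs <;> norm_num
        have h5 := Finset.sum_le_card_nsmul univ _ _ h4
        rwa [nsmul_eq_mul, Finset.card_univ, mul_one] at h5
      rw [Ex_const (vp_sum (1 / 2))] at h3
      linarith
  have hδ0 : 0 ≤ δ := le_trans (Ex_nonneg hl0 (fun Y0 => Ex_nonneg hl0 (fun Y1 => by
    split_ifs <;> norm_num))) hδ
  have h3 : (1 / 2 : ℝ) ^ H.card * ∑ κ, Ex lam (fun Y0 : I → S => Ex lam (fun Y1 : I → S =>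
      if Bd M Kl T L enc (v κ) H Y0 Y1 then (1 : ℝ) else 0)) ≤
      B0 + (Fintype.card K : ℝ) * δ := by
    rw [Finset.mul_sum]
    refine (Finset.sum_le_sum fun κ _ => h1 κ).trans ?_
    rw [← Ex_sum]
    have e1 : (fun x : I → Bool => ∑ κ, Ex lam (fun Y0 : I → S => Ex lam (fun Y1 : I → S =>
        g κ Y0 Y1 x))) = fun x => Ex lam (fun Y0 : I → S => Ex lam (fun Y1 : I → S =>
        ∑ κ, g κ Y0 Y1 x)) := by
      funext x
      rw [← Ex_sum]
      congr 1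
      funext Y0
      rw [← Ex_sum]
    rw [e1, Ex_comm]
    have h4 : ∀ Y0 : I → S, Ex (vp (1 / 2)) (fun x : I → Bool => Ex lam (fun Y1 : I → S =>
        ∑ κ, g κ Y0 Y1 x)) ≤ B0 + (Fintype.card K : ℝ) *
          Ex lam (fun Y1 : I → S => if ¬ Gd Y0 Y1 then (1 : ℝ) else 0) := by
      intro Y0
      rw [Ex_comm]
      refine (Ex_mono hl0 (h2 Y0)).trans (le_of_eq ?_)
      rw [Ex_add, Ex_const hl1, Ex_smul]
    refine (Ex_mono hl0 h4).trans ?_
    rw [Ex_add, Ex_const hl1, Ex_smul]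
    have := mul_le_mul_of_nonneg_left hδ (Nat.cast_nonneg (Fintype.card K) : (0 : ℝ) ≤ _)
    linarith
  have h5 : (2 : ℝ) ^ H.card * ((1 / 2 : ℝ) ^ H.card * ∑ κ, Ex lam (fun Y0 : I → S =>
      Ex lam (fun Y1 : I → S =>
      if Bd M Kl T L enc (v κ) H Y0 Y1 then (1 : ℝ) else 0))) = ∑ κ, Ex lam (fun Y0 : I → S =>
      Ex lam (fun Y1 : I → S =>
      if Bd M Kl T L enc (v κ) H Y0 Y1 then (1 : ℝ) else 0)) := by
    rw [← mul_assoc, ← mul_pow]
    norm_num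
  rw [← h5]
  refine (mul_le_mul_of_nonneg_left h3 (by positivity)).trans ?_
  have h6 : (1 : ℝ) ≤ c ^ H.card := one_le_pow₀ hc
  have h7 : (0 : ℝ) ≤ (Fintype.card K : ℝ) * δ := by positivity
  calc (2 : ℝ) ^ H.card * (B0 + (Fintype.card K : ℝ) * δ)
      ≤ (2 : ℝ) ^ H.card * (B0 + c ^ H.card * ((Fintype.card K : ℝ) * δ)) := by
        apply mul_le_mul_of_nonneg_left _ (by positivity)
        nlinarith
    _ = _ := by rw [hB0, mul_pow]; ring

end BdD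

end Pool.Agent.W964.Wd
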