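import Mathlib
import Pool.Agent.W964.Wd.Td.Count
import Pool.Agent.W964.Wd.Tuple2

/-!
The number of the planted structures that are noticed by a parallel machine whose input words
depend on few blocks: the bound with the parameters chosen.
-/

set_option linter.unusedSectionVars false

namespace Pool.Agent.W964.Wd

open Finset H568R2 H592R3 Pool.Agent.W964.Pram

open Classical in
theorem bd2 {W J S : Type} [Fintype J] {P : ℕ} {I : Type} [Fintype I] [DecidableEq I] [Fintype S]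
    {K : Type} [Fintype K] {k : ℕ} (M : Machine W J P) (enc : (I → S) → (J → W))
    {lam : S → ℝ} (hl0 : ∀ a, 0 ≤ lam a) (hl1 : ∑ a, lam a = 1)
    (v : K → Fin k → I) (hv : ∀ κ, Function.Injective (v κ))
    {Kl l A T L X Dg : ℕ} (hT : 1 ≤ T) (hl : 1 ≤ l) (hTl : T ≤ 2 ^ l)
    (hK : ∀ q, (M.query q).length ≤ Kl) (hm1 : Kl + 2 ≤ 2 ^ l) (hm2 : P + 3 ≤ 2 ^ l)
    (hL : 2 ≤ L) (hX : X = 192 * T * (3 * l + A) * l) (hXL : 2 * L ≤ X) (hDg : Dg ≤ 3 * l + A)
    (Gd : (I → S) → (I → S) → Prop)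
    (hGd : ∀ Y0 Y1, Gd Y0 Y1 → ∀ j, MT Dg (fun x => enc (mix Y0 Y1 x) j)) {δ : ℝ}
    (hδ : Ex lam (fun Y0 : I → S => Ex lam (fun Y1 : I → S =>
      if ¬ Gd Y0 Y1 then (1 : ℝ) else 0)) ≤ δ)
    (H : Finset (Fin k)) (hH1 : 1 ≤ H.card) (hH2 : H.card ≤ 2 * (L - 1)) (B : ℕ)
    (hB : ∀ V : Finset I, (univ.filter (fun κ => H.image (v κ) = V)).card ≤ B) :
    ∑ κ, Ex lam (fun Y0 : I → S => Ex lam (fun Y1 : I → S =>
      if Bd M Kl T L enc (v κ) H Y0 Y1 then (1 : ℝ) else 0)) ≤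
      (X : ℝ) ^ (8 * T * H.card) *
      ((if H.card < L then (1 : ℝ) else ((P + Fintype.card J : ℕ) : ℝ)) * (B : ℝ) +
      (Fintype.card K : ℝ) * ((1 / 2) ^ A + δ)) := by
  obtain ⟨Wm, hWm⟩ : ∃ Wm, Wm = 4 * T * (3 * l + A) * l := ⟨_, rfl⟩
  have hXW : X = 48 * Wm := by rw [hX, hWm]; ring
  have hh : 1 ≤ 3 * l + A := by omega
  have hThl : 1 ≤ T * ((3 * l + A) * l) := Nat.one_le_iff_ne_zero.2 (by positivity)
  have hW1 : 1 ≤ Wm := by
    rw [hWm]
    exact Nat.one_le_iff_ne_zero.2 (by positivity)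
  have hWm' : (3 * l + A) + ((3 * l + A) * l + ((3 * l + A) + T * ((3 * l + A) * l))) ≤ Wm := by
    have h1 : 3 * l + A ≤ (3 * l + A) * l := Nat.le_mul_of_pos_right _ hl
    have h2 : (3 * l + A) * l ≤ T * ((3 * l + A) * l) := Nat.le_mul_of_pos_left _ hT
    have h3 : Wm = 4 * (T * ((3 * l + A) * l)) := by rw [hWm]; ring
    omega
  have hWR : (1 : ℝ) ≤ Wm := by exact_mod_cast hW1
  have hX1 : 48 ≤ X := by omega
  have hXR : (48 : ℝ) ≤ X := by exact_mod_cast hX1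
  have hXR' : (X : ℝ) = 48 * Wm := by rw [hXW]; push_cast; ring
  obtain ⟨c, hc⟩ : ∃ c : ℝ, c = 2 * (X : ℝ) ^ (3 * T) := ⟨_, rfl⟩
  have h1 := bd_countD M enc hl0 hl1 v hv H (h := 3 * l + A) (l := l) (T := T) (Wm := Wm) (L := L)
    (B := B) hh hDg hT Gd hGd hδ hK
    hm1 hm2 hWm' hL hH1 hB (q₀ := 1 / (48 * (Wm : ℝ))) (q := ((1 / (48 * (Wm : ℝ))) ^ 3) ^ T)
    (c := c) (by positivity) (by
      apply one_div_le_one_div_of_le (by norm_num)
      linarith) rfl (by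
      rw [hc, ← pow_mul, ← hXR', one_div_pow]
      have : (X : ℝ) ^ (3 * T) ≠ 0 := by positivity
      field_simp
      exact le_rfl) (by
      rw [hc]
      have : (1 : ℝ) ≤ (X : ℝ) ^ (3 * T) := one_le_pow₀ (by linarith)
      linarith)
  have hδ0 : 0 ≤ δ := le_trans (Ex_nonneg hl0 (fun Y0 => Ex_nonneg hl0 (fun Y1 => by
    split_ifs <;> norm_num))) hδ
  refine h1.trans ?_
  have hfl := fl_le (A := A) hTl hm1 hm2 hW1
  obtain ⟨s, hs⟩ : ∃ s, s = H.card := ⟨_, rfl⟩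
  rw [← hs] at hH1 hH2 ⊢
  obtain ⟨P', hP'⟩ : ∃ P', P' = P + Fintype.card J := ⟨_, rfl⟩
  rw [← hP']
  have h2c : 2 * c ≤ (X : ℝ) ^ (3 * T + 1) := by
    rw [hc, pow_succ]
    have : (0 : ℝ) ≤ (X : ℝ) ^ (3 * T) := by positivity
    nlinarith
  have h2c0 : 0 ≤ 2 * c := by rw [hc]; positivity
  have h2cs : (2 * c) ^ s ≤ (X : ℝ) ^ ((3 * T + 1) * s) := by
    rw [pow_mul]
    exact pow_le_pow_left₀ h2c0 h2c s
  have hX1' : (1 : ℝ) ≤ X := by linarith
  have hTs : s ≤ T * s := Nat.le_mul_of_pos_left _ hT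
  have hTT : T ≤ T * s := Nat.le_mul_of_pos_right _ hH1
  -- the bound of the number of sets
  have hNb : (2 * c) ^ s * (Nb T P' Wm L s : ℝ) ≤ (X : ℝ) ^ (8 * T * s) *
      (if s < L then (1 : ℝ) else (P' : ℝ)) := by
    have h2W : (2 * Wm : ℕ) ≤ X := by omega
    unfold Nb
    by_cases hsL : s < L
    · rw [if_pos hsL, if_pos hsL, mul_one]
      have h2 : (((2 * Wm) ^ s : ℕ) : ℝ) ≤ (X : ℝ) ^ s := by
        exact_mod_cast Nat.pow_le_pow_left h2W s
      calc (2 * c) ^ s * (((2 * Wm) ^ s : ℕ) : ℝ) ≤ (X : ℝ) ^ ((3 * T + 1) * s) * (X : ℝ) ^ s :=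
            mul_le_mul h2cs h2 (by positivity) (by positivity)
        _ = (X : ℝ) ^ ((3 * T + 1) * s + s) := (pow_add _ _ _).symm
        _ ≤ (X : ℝ) ^ (8 * T * s) := by
            apply pow_le_pow_right₀ hX1'
            have : (3 * T + 1) * s + s = 3 * (T * s) + 2 * s := by ring
            have h3 : 8 * T * s = 8 * (T * s) := by ring
            omega
    · rw [if_neg hsL, if_neg hsL]
      have hTX : T ≤ X := by
        rw [hX]
        calc T = T * 1 := (mul_one T).symm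
          _ ≤ T * (192 * ((3 * l + A) * l)) := Nat.mul_le_mul_left _
              (Nat.one_le_iff_ne_zero.2 (by positivity))
          _ = 192 * T * (3 * l + A) * l := by ring
      have hsX : s + 2 ≤ X := by omega
      have h2 : (T * P') * ((s + 2) * ((2 * Wm) ^ s * (2 * Wm) ^ s)) ≤
          P' * X ^ (2 * s + 2) := by
        calc (T * P') * ((s + 2) * ((2 * Wm) ^ s * (2 * Wm) ^ s))
            ≤ (X * P') * (X * (X ^ s * X ^ s)) := by
              apply Nat.mul_le_mul (Nat.mul_le_mul_right _ hTX)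
              apply Nat.mul_le_mul hsX
              exact Nat.mul_le_mul (Nat.pow_le_pow_left h2W s) (Nat.pow_le_pow_left h2W s)
          _ = P' * X ^ (2 * s + 2) := by ring
      have h3 : (((T * P') * ((s + 2) * ((2 * Wm) ^ s * (2 * Wm) ^ s)) : ℕ) : ℝ) ≤
          P' * (X : ℝ) ^ (2 * s + 2) := by exact_mod_cast h2
      calc (2 * c) ^ s * (((T * P') * ((s + 2) * ((2 * Wm) ^ s * (2 * Wm) ^ s)) : ℕ) : ℝ)
          ≤ (X : ℝ) ^ ((3 * T + 1) * s) * (P' * (X : ℝ) ^ (2 * s + 2)) :=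
            mul_le_mul h2cs h3 (by positivity) (by positivity)
        _ = (X : ℝ) ^ ((3 * T + 1) * s + (2 * s + 2)) * P' := by
            rw [pow_add (X : ℝ) ((3 * T + 1) * s)]; ring
        _ ≤ (X : ℝ) ^ (8 * T * s) * P' := by
            apply mul_le_mul_of_nonneg_right _ (Nat.cast_nonneg P')
            apply pow_le_pow_right₀ hX1'
            have : (3 * T + 1) * s + (2 * s + 2) = 3 * (T * s) + 3 * s + 2 := by ring
            have h3 : 8 * T * s = 8 * (T * s) := by ring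
            omega
  have h2cs' : (2 * c) ^ s ≤ (X : ℝ) ^ (8 * T * s) := by
    refine h2cs.trans ?_
    apply pow_le_pow_right₀ hX1'
    have : (3 * T + 1) * s = 3 * (T * s) + s := by ring
    have h3 : 8 * T * s = 8 * (T * s) := by ring
    omega
  calc (2 * c) ^ s * (((Nb T P' Wm L s * B : ℕ) : ℝ) +
        (Fintype.card K : ℝ) * (Fl T P (3 * l + A) Kl Wm (1 / (48 * (Wm : ℝ))) + δ))
      = ((2 * c) ^ s * (Nb T P' Wm L s : ℝ)) * (B : ℝ) + (2 * c) ^ s *
        ((Fintype.card K : ℝ) * (Fl T P (3 * l + A) Kl Wm (1 / (48 * (Wm : ℝ))) + δ)) := by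
        push_cast; ring
    _ ≤ ((X : ℝ) ^ (8 * T * s) * (if s < L then (1 : ℝ) else (P' : ℝ))) * (B : ℝ) +
        (X : ℝ) ^ (8 * T * s) * ((Fintype.card K : ℝ) * ((1 / 2) ^ A + δ)) := by
        apply add_le_add
        · exact mul_le_mul_of_nonneg_right hNb (Nat.cast_nonneg _)
        · refine mul_le_mul h2cs' (mul_le_mul_of_nonneg_left (by linarith) (Nat.cast_nonneg _)) ?_
            (by positivity)
          have : 0 ≤ Fl T P (3 * l + A) Kl Wm (1 / (48 * (Wm : ℝ))) := by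
            unfold Fl
            positivity
          positivity
    _ = _ := by ring

end Pool.Agent.W964.Wd
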