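import Mathlib

/-!
Lists of the edges of a graph.
-/

namespace Pool.Agent.W964.Wd

/-- A list of the edges of a simple graph with the vertices `0, …, N - 1`: the edge between `u`
and `v`, `u < v`, is given as the pair `(u, v)`, and no edge occurs twice. The positions of the
list are the elements of `J`. -/
def EdgeList {J : Type} (N : ℕ) (x : J → ℕ × ℕ) : Prop :=
  (∀ j, (x j).1 < (x j).2 ∧ (x j).2 < N) ∧ Function.Injective x

/-- The graph with the edge list `x` has a triangle. -/
def HasTriangle {J : Type} (x : J → ℕ × ℕ) : Prop :=
  ∃ i j k a b c, x i = (a, b) ∧ x j = (b, c) ∧ x k = (a, c)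

end Pool.Agent.W964.Wd
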