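import Mathlib
import Pool.Agent.W964.Wd.Td.Defs
import Pool.Agent.W964.Wd.Td.Count2

/-!
Random edge lists without triangles and edge lists with one planted triangle.
-/

set_option linter.unusedSectionVars false

namespace Pool.Agent.W964.Wd

open Finset H568R2 H592R3 Pool.Agent.W964.Pram

/-- The positions of the edges. -/
abbrev Cel (g : ℕ) : Type := Fin 3 × (Fin g × Fin g)

/-- The triples of blocks. -/
abbrev Tri3 (g : ℕ) : Type := Fin g × (Fin g × Fin g)

section Defs
variable {g q : ℕ}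

/-- The pairs of blocks of a triple. -/
def ixt (κ : Tri3 g) (h : Fin 3) : Fin g × Fin g :=
  if h = 0 then (κ.1, κ.2.1) else if h = 1 then (κ.2.1, κ.2.2) else (κ.2.2, κ.1)

/-- The positions of the edges of a triple. -/
def cel (κ : Tri3 g) (h : Fin 3) : Cel g := (h, ixt κ h)

/-- The choices of the ends of the edges match. -/
def Cl (Z : Cel g → Fin q × Fin q) (κ : Tri3 g) : Prop :=
  ∀ h : Fin 3, (Z (cel κ h)).2 = (Z (cel κ (h + 1))).1

/-- The edge with the given ends. -/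
def raw (g q : ℕ) (c : Cel g) (s : Fin q × Fin q) : ℕ × ℕ :=
  if c.1 = 0 then (c.2.1.val * q + s.1.val, g * q + (c.2.2.val * q + s.2.val))
  else if c.1 = 1 then (g * q + (c.2.1.val * q + s.1.val), 2 * (g * q) + (c.2.2.val * q + s.2.val))
  else (c.2.2.val * q + s.2.val, 2 * (g * q) + (c.2.1.val * q + s.1.val))

/-- An edge between two vertices that have no other neighbour. -/
def dum (g q : ℕ) (c : Cel g) : ℕ × ℕ :=
  (3 * (g * q) + 2 * (c.2.1.val * g + c.2.2.val), 3 * (g * q) + 2 * (c.2.1.val * g + c.2.2.val) + 1)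

open Classical in
/-- The edge list: the edges of the third kind that close a triangle are replaced. -/
noncomputable def enc (g q : ℕ) (Z : Cel g → Fin q × Fin q) : Cel g → ℕ × ℕ := fun c =>
  if c.1 = 2 ∧ ∃ β : Fin g, Cl Z (c.2.2, (β, c.2.1)) then dum g q c else raw g q c (Z c)

open Classical in
/-- The edge list with some planted edges. -/
noncomputable def pln (g q : ℕ) (κ : Tri3 g) (y : Fin 3 → Fin q × Fin q)
    (Z : Cel g → Fin q × Fin q) (U : Finset (Fin 3)) : Cel g → ℕ × ℕ := fun c =>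
  if ∃ h ∈ U, cel κ h = c then raw g q c (Function.extend (cel κ) y Z c) else enc g q Z c

end Defs

section Basic
variable {g q : ℕ}

lemma cel_inj (κ : Tri3 g) : Function.Injective (cel κ) := fun _ _ e => (Prod.mk.inj e).1

lemma ixt_0 (κ : Tri3 g) : ixt κ 0 = (κ.1, κ.2.1) := rfl
lemma ixt_1 (κ : Tri3 g) : ixt κ 1 = (κ.2.1, κ.2.2) := rfl
lemma ixt_2 (κ : Tri3 g) : ixt κ 2 = (κ.2.2, κ.1) := rfl

lemma ixt_share {κ τ : Tri3 g} {h h' : Fin 3} (hh : h ≠ h') (e : ixt κ h = ixt τ h)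
    (e' : ixt κ h' = ixt τ h') : κ = τ := by
  obtain ⟨a, b, c⟩ := κ
  obtain ⟨a', b', c'⟩ := τ
  fin_cases h <;> fin_cases h' <;> first
    | exact absurd rfl hh
    | (simp [ixt] at e e' ⊢; tauto)

/-- The words that occur. -/
def Val (g q : ℕ) (c : Cel g) (e : ℕ × ℕ) : Prop :=
  (∃ s, e = raw g q c s) ∨ (c.1 = 2 ∧ e = dum g q c)

lemma enc_val (Z : Cel g → Fin q × Fin q) (c : Cel g) : Val g q c (enc g q Z c) := by
  unfold enc
  split_ifs with h
  · exact Or.inr ⟨h.1, rfl⟩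
  · exact Or.inl ⟨_, rfl⟩

lemma pln_val (κ : Tri3 g) (y : Fin 3 → Fin q × Fin q) (Z : Cel g → Fin q × Fin q)
    (U : Finset (Fin 3)) (c : Cel g) : Val g q c (pln g q κ y Z U c) := by
  unfold pln
  split_ifs with h
  · exact Or.inl ⟨_, rfl⟩
  · exact enc_val Z c

lemma blk_lt {i s : ℕ} (hi : i < g) (hs : s < q) : i * q + s < g * q := by
  have h1 : (i + 1) * q ≤ g * q := Nat.mul_le_mul_right q (by omega)
  have h2 : (i + 1) * q = i * q + q := by ring
  omega

lemma blk_inj {i i' s s' : ℕ} (hs : s < q) (hs' : s' < q) (h : i * q + s = i' * q + s') :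
    i = i' ∧ s = s' := by
  have h1 : (i * q + s) / q = i := by
    rw [mul_comm, Nat.mul_add_div (by omega), Nat.div_eq_of_lt hs, add_zero]
  have h2 : (i' * q + s') / q = i' := by
    rw [mul_comm, Nat.mul_add_div (by omega), Nat.div_eq_of_lt hs', add_zero]
  have h3 : i = i' := by rw [← h1, h, h2]
  subst h3
  exact ⟨rfl, by omega⟩

/-- The shapes of the words. -/
lemma val_shape {k : Fin 3} {i j : Fin g} {e : ℕ × ℕ} (h : Val g q (k, (i, j)) e) :
    (k = 0 ∧ ∃ s t : ℕ, s < q ∧ t < q ∧ e = (i.val * q + s, g * q + (j.val * q + t)) ∧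
      i.val * q + s < g * q ∧ j.val * q + t < g * q) ∨
    (k = 1 ∧ ∃ s t : ℕ, s < q ∧ t < q ∧
      e = (g * q + (i.val * q + s), 2 * (g * q) + (j.val * q + t)) ∧
      i.val * q + s < g * q ∧ j.val * q + t < g * q) ∨
    (k = 2 ∧ ∃ s t : ℕ, s < q ∧ t < q ∧
      e = (j.val * q + t, 2 * (g * q) + (i.val * q + s)) ∧
      i.val * q + s < g * q ∧ j.val * q + t < g * q) ∨
    (k = 2 ∧ e = (3 * (g * q) + 2 * (i.val * g + j.val),
      3 * (g * q) + 2 * (i.val * g + j.val) + 1) ∧ i.val * g + j.val < g * g) := by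
  rcases h with ⟨s, rfl⟩ | ⟨h1, rfl⟩
  · have h1 := blk_lt i.isLt s.1.isLt
    have h2 := blk_lt j.isLt s.2.isLt
    fin_cases k
    · exact Or.inl ⟨rfl, s.1, s.2, s.1.isLt, s.2.isLt, rfl, h1, h2⟩
    · exact Or.inr (Or.inl ⟨rfl, s.1, s.2, s.1.isLt, s.2.isLt, rfl, h1, h2⟩)
    · exact Or.inr (Or.inr (Or.inl ⟨rfl, s.1, s.2, s.1.isLt, s.2.isLt, rfl, h1, h2⟩))
  · exact Or.inr (Or.inr (Or.inr ⟨h1, rfl, blk_lt i.isLt j.isLt⟩))

/-- The words form an edge list. -/
lemma val_edge (hqg : q ≤ g) (x : Cel g → ℕ × ℕ) (hx : ∀ c, Val g q c (x c)) :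
    EdgeList (5 * g ^ 2) x := by
  have hgq : g * q ≤ g * g := Nat.mul_le_mul_left g hqg
  have h5 : 5 * g ^ 2 = 5 * (g * g) := by ring
  constructor
  · rintro ⟨k, i, j⟩
    rcases val_shape (hx (k, (i, j))) with ⟨_, s, t, _, _, h, h1, h2⟩ | ⟨_, s, t, _, _, h, h1, h2⟩ |
      ⟨_, s, t, _, _, h, h1, h2⟩ | ⟨_, h, h1⟩
    · rw [h, h5]
      dsimp only
      omega
    · rw [h, h5]
      dsimp only
      omega
    · rw [h, h5]
      dsimp only
      omega
    · rw [h, h5]
      dsimp only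
      omega
  · intro c c' hcc
    have key : ∀ (k k' : Fin 3) (i j i' j' : Fin g), k = k' → i.val = i'.val → j.val = j'.val →
        ((k, (i, j)) : Cel g) = (k', (i', j')) := by
      intro k k' i j i' j' h1 h2 h3
      rw [h1, Fin.ext h2, Fin.ext h3]
    obtain ⟨k, i, j⟩ := c
    obtain ⟨k', i', j'⟩ := c'
    rcases val_shape (hx (k, (i, j))) with ⟨hk, s, t, hs, ht, h, h1, h2⟩ |
      ⟨hk, s, t, hs, ht, h, h1, h2⟩ | ⟨hk, s, t, hs, ht, h, h1, h2⟩ | ⟨hk, h, h1⟩ <;>
    rcases val_shape (hx (k', (i', j'))) with ⟨hk', s', t', hs', ht', h', h1', h2'⟩ |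
      ⟨hk', s', t', hs', ht', h', h1', h2'⟩ | ⟨hk', s', t', hs', ht', h', h1', h2'⟩ |
      ⟨hk', h', h1'⟩ <;>
    (rw [h, h'] at hcc
     obtain ⟨e1, e2⟩ := Prod.mk.inj hcc
     first
     | (exfalso; omega)
     | (have e5 : i.val * g + j.val = i'.val * g + j'.val := by omega
        obtain ⟨e3, e4⟩ := blk_inj j.isLt j'.isLt e5
        exact key _ _ _ _ _ _ (hk.trans hk'.symm) e3 e4)
     | (obtain ⟨e3, _⟩ := blk_inj hs hs' (by omega : i.val * q + s = i'.val * q + s')
        obtain ⟨e4, _⟩ := blk_inj ht ht' (by omega : j.val * q + t = j'.val * q + t')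
        exact key _ _ _ _ _ _ (hk.trans hk'.symm) e3 e4))

/-- The shapes of the words of the random edge list. -/
lemma enc_shape (Z : Cel g → Fin q × Fin q) (k : Fin 3) (i j : Fin g) {u v : ℕ}
    (h : enc g q Z (k, (i, j)) = (u, v)) :
    ∃ s t : Fin q, Z (k, (i, j)) = (s, t) ∧
    ((k = 0 ∧ u = i.val * q + s.val ∧ v = g * q + (j.val * q + t.val) ∧
      i.val * q + s.val < g * q ∧ j.val * q + t.val < g * q) ∨
    (k = 1 ∧ u = g * q + (i.val * q + s.val) ∧ v = 2 * (g * q) + (j.val * q + t.val) ∧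
      i.val * q + s.val < g * q ∧ j.val * q + t.val < g * q) ∨
    (k = 2 ∧ u = j.val * q + t.val ∧ v = 2 * (g * q) + (i.val * q + s.val) ∧
      i.val * q + s.val < g * q ∧ j.val * q + t.val < g * q ∧ ¬ ∃ β, Cl Z (j, (β, i))) ∨
    (k = 2 ∧ u = 3 * (g * q) + 2 * (i.val * g + j.val) ∧
      v = 3 * (g * q) + 2 * (i.val * g + j.val) + 1)) := by
  refine ⟨(Z (k, (i, j))).1, (Z (k, (i, j))).2, rfl, ?_⟩
  have h1 := blk_lt i.isLt (Z (k, (i, j))).1.isLt
  have h2 := blk_lt j.isLt (Z (k, (i, j))).2.isLt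
  unfold enc at h
  by_cases hc : ((k, (i, j)) : Cel g).1 = 2 ∧ ∃ β : Fin g,
      Cl Z (((k, (i, j)) : Cel g).2.2, (β, ((k, (i, j)) : Cel g).2.1))
  · rw [if_pos hc] at h
    obtain ⟨e1, e2⟩ := Prod.mk.inj h
    exact Or.inr (Or.inr (Or.inr ⟨hc.1, e1.symm, e2.symm⟩))
  · rw [if_neg hc] at h
    fin_cases k
    · obtain ⟨e1, e2⟩ := Prod.mk.inj h
      exact Or.inl ⟨rfl, e1.symm, e2.symm, h1, h2⟩
    · obtain ⟨e1, e2⟩ := Prod.mk.inj h
      exact Or.inr (Or.inl ⟨rfl, e1.symm, e2.symm, h1, h2⟩)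
    · obtain ⟨e1, e2⟩ := Prod.mk.inj h
      exact Or.inr (Or.inr (Or.inl ⟨rfl, e1.symm, e2.symm, h1, h2, fun h3 => hc ⟨rfl, h3⟩⟩))

/-- The random edge list has no triangle. -/
lemma enc_no (Z : Cel g → Fin q × Fin q) : ¬ HasTriangle (enc g q Z) := by
  rintro ⟨⟨k, i, j⟩, ⟨k', i', j'⟩, ⟨k'', i'', j''⟩, a, b, c, e1, e2, e3⟩
  obtain ⟨s, t, hZ, h1⟩ := enc_shape Z k i j e1
  obtain ⟨s', t', hZ', h2⟩ := enc_shape Z k' i' j' e2
  obtain ⟨s'', t'', hZ'', h3⟩ := enc_shape Z k'' i'' j'' e3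
  rcases h1 with h1 | h1 | h1 | h1
  · rcases h2 with h2 | h2 | h2 | h2
    · omega
    · rcases h3 with h3 | h3 | h3 | h3
      · omega
      · omega
      · obtain ⟨rfl, f1, f2, f3, f4⟩ := h1
        obtain ⟨rfl, f1', f2', f3', f4'⟩ := h2
        obtain ⟨rfl, f1'', f2'', f3'', f4'', hno⟩ := h3
        obtain ⟨x1, x2⟩ := blk_inj s.isLt t''.isLt (f1.symm.trans f1'')
        obtain ⟨y1, y2⟩ := blk_inj t.isLt s'.isLt
          (by omega : j.val * q + t.val = i'.val * q + s'.val)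
        obtain ⟨z1, z2⟩ := blk_inj t'.isLt s''.isLt
          (by omega : j'.val * q + t'.val = i''.val * q + s''.val)
        have x3 := Fin.ext x1
        have x4 := Fin.ext x2
        have y3 := Fin.ext y1
        have y4 := Fin.ext y2
        have z3 := Fin.ext z1
        have z4 := Fin.ext z2
        subst x3 x4 y3 y4 z3 z4
        apply hno
        refine ⟨j, ?_⟩
        intro h
        fin_cases h
        · show (Z (0, (i, j))).2 = (Z (1, (j, j'))).1
          rw [hZ, hZ']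
        · show (Z (1, (j, j'))).2 = (Z (2, (j', i))).1
          rw [hZ', hZ'']
        · show (Z (2, (j', i))).2 = (Z (0, (i, j))).1
          rw [hZ'', hZ]
      · omega
    · omega
    · omega
  · rcases h2 with h2 | h2 | h2 | h2 <;> omega
  · rcases h2 with h2 | h2 | h2 | h2 <;> omega
  · rcases h2 with h2 | h2 | h2 | h2 <;> omega

/-- The planted edges. -/
def ypl (a b c : Fin q) (h : Fin 3) : Fin q × Fin q :=
  if h = 0 then (a, b) else if h = 1 then (b, c) else (c, a)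

/-- The edge list with the planted edges has a triangle. -/
lemma pln_yes (κ : Tri3 g) (a b c : Fin q) (Z : Cel g → Fin q × Fin q) :
    HasTriangle (pln g q κ (ypl a b c) Z univ) := by
  have key : ∀ h : Fin 3, pln g q κ (ypl a b c) Z univ (cel κ h) =
      raw g q (cel κ h) (ypl a b c h) := by
    intro h
    unfold pln
    rw [if_pos ⟨h, Finset.mem_univ h, rfl⟩, (cel_inj κ).extend_apply]
  exact ⟨cel κ 0, cel κ 1, cel κ 2, _, _, _, key 0, key 1, key 2⟩

end Basic

section Good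
variable {g q : ℕ}

/-- The contents with some planted edges. -/
noncomputable def mxU (κ : Tri3 g) (y : Fin 3 → Fin q × Fin q) (Z : Cel g → Fin q × Fin q)
    (U : Finset (Fin 3)) : Cel g → Fin q × Fin q :=
  mix Z (Function.extend (cel κ) y Z) (plant (cel κ) U (fun _ => false))

lemma mxU_in (κ : Tri3 g) (y : Fin 3 → Fin q × Fin q) (Z : Cel g → Fin q × Fin q)
    {U : Finset (Fin 3)} {h : Fin 3} (hU : h ∈ U) : mxU κ y Z U (cel κ h) = y h := by
  unfold mxU mix plant
  have h1 : ∃ j ∈ U, cel κ j = cel κ h := ⟨h, hU, rfl⟩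
  simp only [h1, decide_true, Bool.true_or, if_true]
  exact (cel_inj κ).extend_apply _ _ _

lemma mxU_out (κ : Tri3 g) (y : Fin 3 → Fin q × Fin q) (Z : Cel g → Fin q × Fin q)
    {U : Finset (Fin 3)} {c : Cel g} (hc : ∀ h ∈ U, cel κ h ≠ c) : mxU κ y Z U c = Z c := by
  unfold mxU mix plant
  have h1 : ¬ ∃ j ∈ U, cel κ j = c := by
    rintro ⟨j, hj, e⟩
    exact hc j hj e
  simp [h1]

lemma mxU_empty (κ : Tri3 g) (y : Fin 3 → Fin q × Fin q) (Z : Cel g → Fin q × Fin q) :
    mxU κ y Z ∅ = Z := by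
  funext c
  exact mxU_out κ y Z (by simp)

/-- The planted edges and the edges they replace do not close further triangles. -/
def GdT (κ : Tri3 g) (y : Fin 3 → Fin q × Fin q) (Z : Cel g → Fin q × Fin q) : Prop :=
  ∀ (U : Finset (Fin 3)) (τ : Tri3 g) (h : Fin 3), U ≠ univ → cel τ h = cel κ h →
    ¬ Cl (mxU κ y Z U) τ

lemma cl_congr {Z Z' : Cel g → Fin q × Fin q} {τ : Tri3 g} (h : ∀ h, Z (cel τ h) = Z' (cel τ h)) :
    Cl Z τ ↔ Cl Z' τ := by
  unfold Cl
  simp only [h]

lemma pln_eq {κ : Tri3 g} {y : Fin 3 → Fin q × Fin q} {Z : Cel g → Fin q × Fin q}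
    (hG : GdT κ y Z) {U : Finset (Fin 3)} (hU : U ≠ univ) :
    pln g q κ y Z U = enc g q (mxU κ y Z U) := by
  have hmem : ∀ {τ : Tri3 g} {h h' : Fin 3}, cel κ h = cel τ h' → h = h' :=
    fun e => (Prod.mk.inj e).1
  have hE : ∀ U' : Finset (Fin 3), U' ≠ univ → enc g q (mxU κ y Z U') (cel κ 2) =
      raw g q (cel κ 2) (mxU κ y Z U' (cel κ 2)) := by
    intro U' hU'
    unfold enc
    rw [if_neg]
    rintro ⟨_, β, hβ⟩
    exact hG U' ((cel κ 2).2.2, (β, (cel κ 2).2.1)) 2 hU' rfl hβ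
  have hne : (∅ : Finset (Fin 3)) ≠ univ := by decide
  funext c
  by_cases hc : c = cel κ 2
  · subst hc
    rw [hE U hU]
    unfold pln
    by_cases h2 : (2 : Fin 3) ∈ U
    · rw [if_pos ⟨2, h2, rfl⟩, mxU_in κ y Z h2, (cel_inj κ).extend_apply]
    · rw [if_neg (by
        rintro ⟨h, hh, e⟩
        exact h2 (hmem e ▸ hh))]
      have h3 := hE ∅ hne
      rw [mxU_empty] at h3
      rw [h3, mxU_out κ y Z (by
        intro h hh e
        exact h2 (hmem e ▸ hh))]
  · by_cases hc2 : c.1 = 2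
    · have hnot : ∀ h, cel κ h ≠ c := by
        intro h e
        have : h = 2 := by rw [← hc2, ← e]; rfl
        subst this
        exact hc e.symm
      have h1 : mxU κ y Z U c = Z c := mxU_out κ y Z (fun h _ => hnot h)
      unfold pln
      rw [if_neg (by
        rintro ⟨h, hh, e⟩
        exact hnot h e)]
      unfold enc
      rw [h1]
      have h2 : (∃ β : Fin g, Cl (mxU κ y Z U) (c.2.2, (β, c.2.1))) ↔
          ∃ β : Fin g, Cl Z (c.2.2, (β, c.2.1)) := by
        apply exists_congr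
        intro β
        by_cases hs : ∃ h, cel (c.2.2, (β, c.2.1)) h = cel κ h
        · obtain ⟨h, hh⟩ := hs
          have h3 := hG U _ h hU hh
          have h4 := hG ∅ _ h hne hh
          rw [mxU_empty] at h4
          exact iff_of_false h3 h4
        · push Not at hs
          apply cl_congr
          intro h
          apply mxU_out
          intro h' _ e
          have := hmem e
          subst this
          exact hs h' e.symm
      by_cases h5 : c.1 = 2 ∧ ∃ β : Fin g, Cl Z (c.2.2, (β, c.2.1))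
      · rw [if_pos h5, if_pos ⟨h5.1, h2.2 h5.2⟩]
      · rw [if_neg h5, if_neg (fun h6 => h5 ⟨h6.1, h2.1 h6.2⟩)]
    · have henc : ∀ Z' : Cel g → Fin q × Fin q, enc g q Z' c = raw g q c (Z' c) := by
        intro Z'
        unfold enc
        rw [if_neg (fun h => hc2 h.1)]
      rw [henc]
      unfold pln
      by_cases h2 : ∃ h ∈ U, cel κ h = c
      · rw [if_pos h2]
        obtain ⟨h, hh, rfl⟩ := h2
        rw [mxU_in κ y Z hh, (cel_inj κ).extend_apply]
      · rw [if_neg h2, henc, mxU_out κ y Z (fun h hh e => h2 ⟨h, hh, e⟩)]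

/-- The words of the edge list with planted edges. -/
lemma pln_low (κ : Tri3 g) (y : Fin 3 → Fin q × Fin q) (Z : Cel g → Fin q × Fin q)
    (c : Cel g) : LowV 1 (fun U : Finset (Fin 3) => pln g q κ y Z U c) := by
  by_cases hc : ∃ h, cel κ h = c
  · obtain ⟨h, rfl⟩ := hc
    have h1 := lowV_one (I := Fin 3) (f := fun x : Fin 3 → Bool => x h) ⟨{h}, by simp,
      fun x y hxy => by exact hxy h (Finset.mem_singleton_self h)⟩ (vr := id)
      Function.injective_id (fun _ => false)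
    have h2 := h1.map (fun b : Bool => if b = true then
      raw g q (cel κ h) (Function.extend (cel κ) y Z (cel κ h)) else enc g q Z (cel κ h))
    have e : (fun U : Finset (Fin 3) => pln g q κ y Z U (cel κ h)) = fun U =>
        (fun b : Bool => if b = true then
        raw g q (cel κ h) (Function.extend (cel κ) y Z (cel κ h)) else enc g q Z (cel κ h))
        ((fun x : Fin 3 → Bool => x h) (plant id U (fun _ => false))) := by
      funext U
      unfold pln plant
      by_cases hU : h ∈ U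
      · rw [if_pos ⟨h, hU, rfl⟩]
        simp [hU]
      · rw [if_neg (by
          rintro ⟨h', hh', e⟩
          exact hU (cel_inj κ e ▸ hh'))]
        simp [hU]
    rw [e]
    exact h2
  · have e : (fun U : Finset (Fin 3) => pln g q κ y Z U c) = fun _ => enc g q Z c := by
      funext U
      unfold pln
      rw [if_neg (fun ⟨h, _, e⟩ => hc ⟨h, e⟩)]
    rw [e]
    exact LowV.const _

end Good

end Pool.Agent.W964.Wd
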