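import Mathlib
import Pool.Agent.W964.Wd.Td.Graph

/-!
The probabilities of closed triples in random edge lists.
-/

set_option linter.unusedSectionVars false

namespace Pool.Agent.W964.Wd

open Finset H568R2 H592R3 Pool.Agent.W964.Pram

section Unif
variable {g q : ℕ}

/-- The uniform distribution on the pairs. -/
noncomputable def uq (q : ℕ) : Fin q × Fin q → ℝ := fun _ => 1 / (q : ℝ) ^ 2

lemma uq0 (a : Fin q × Fin q) : 0 ≤ uq q a := by unfold uq; positivity

lemma uq1 (hq : 1 ≤ q) : ∑ a, uq q a = 1 := by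
  have hqR : (0 : ℝ) < q := by exact_mod_cast hq
  unfold uq
  rw [Finset.sum_const, Finset.card_univ, Fintype.card_prod, Fintype.card_fin, nsmul_eq_mul]
  push_cast
  field_simp

lemma fit_count (s t : Fin q) : (univ.filter (fun p : (Fin q × Fin q) × (Fin q × Fin q) =>
    p.1.1 = t ∧ p.1.2 = p.2.1 ∧ p.2.2 = s)).card ≤ q := by
  have h1 := Finset.card_le_card_of_injOn (s := univ.filter
      (fun p : (Fin q × Fin q) × (Fin q × Fin q) => p.1.1 = t ∧ p.1.2 = p.2.1 ∧ p.2.2 = s))
      (t := univ) (fun p => p.1.2)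
      (fun κ _ => Finset.mem_coe.2 (Finset.mem_univ _)) (by
        intro p hp p' hp' h
        obtain ⟨h1, h2, h3⟩ := (Finset.mem_filter.1 (Finset.mem_coe.1 hp)).2
        obtain ⟨h1', h2', h3'⟩ := (Finset.mem_filter.1 (Finset.mem_coe.1 hp')).2
        dsimp only at h
        exact Prod.ext (Prod.ext (h1.trans h1'.symm) h)
          (Prod.ext (h2.symm.trans (h.trans h2')) (h3.trans h3'.symm)))
  rwa [Finset.card_univ, Fintype.card_fin] at h1

/-- Two random words fit a third one. -/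
lemma fit_sum (hq : 1 ≤ q) (s t : Fin q) : ∑ a, uq q a * ∑ a', uq q a' *
    (if a.1 = t ∧ a.2 = a'.1 ∧ a'.2 = s then (1 : ℝ) else 0) ≤ 1 / (q : ℝ) ^ 3 := by
  have hqR : (0 : ℝ) < q := by exact_mod_cast hq
  have e : ∑ a : Fin q × Fin q, uq q a * ∑ a' : Fin q × Fin q, uq q a' *
      (if a.1 = t ∧ a.2 = a'.1 ∧ a'.2 = s then (1 : ℝ) else 0) = (1 / (q : ℝ) ^ 4) *
      ∑ p : (Fin q × Fin q) × (Fin q × Fin q),
        (if p.1.1 = t ∧ p.1.2 = p.2.1 ∧ p.2.2 = s then (1 : ℝ) else 0) := by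
    have e' : ∑ p : (Fin q × Fin q) × (Fin q × Fin q),
        (if p.1.1 = t ∧ p.1.2 = p.2.1 ∧ p.2.2 = s then (1 : ℝ) else 0) =
        ∑ a : Fin q × Fin q, ∑ a' : Fin q × Fin q,
        (if a.1 = t ∧ a.2 = a'.1 ∧ a'.2 = s then (1 : ℝ) else 0) := Fintype.sum_prod_type _
    rw [e']
    unfold uq
    simp only [Finset.mul_sum]
    refine Finset.sum_congr rfl fun a _ => ?_
    refine Finset.sum_congr rfl fun a' _ => ?_
    have h1 : (1 : ℝ) / (q : ℝ) ^ 4 = 1 / (q : ℝ) ^ 2 * (1 / (q : ℝ) ^ 2) := by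
      field_simp
    rw [h1, mul_assoc]
  rw [e, Finset.sum_boole]
  have h1 : (((univ.filter (fun p : (Fin q × Fin q) × (Fin q × Fin q) =>
    p.1.1 = t ∧ p.1.2 = p.2.1 ∧ p.2.2 = s)).card : ℕ) : ℝ) ≤ q := by exact_mod_cast fit_count s t
  calc _ ≤ (1 / (q : ℝ) ^ 4) * q := mul_le_mul_of_nonneg_left h1 (by positivity)
    _ = 1 / (q : ℝ) ^ 3 := by field_simp

/-- Two cells of a triple. -/
lemma Ex_two {A : Type*} [Fintype A] {w : A → ℝ} (hw : ∑ a, w a = 1)
    (F : (Cel g → A) → ℝ) (i1 i2 : Cel g) :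
    Ex w F = Ex w (fun Z => ∑ a', w a' * ∑ a, w a *
      F (Function.update (Function.update Z i2 a') i1 a)) := by
  rw [Ex_resample hw F i1, Ex_resample hw _ i2]

lemma three_add (h : Fin 3) : h + 1 + 1 + 1 = h := by revert h; decide

lemma add_ne (h : Fin 3) : h + 1 ≠ h ∧ h + 1 + 1 ≠ h ∧ h + 1 + 1 ≠ h + 1 := by revert h; decide

open Classical in
/-- Another triple through a planted position. -/
lemma cl_other (hq : 1 ≤ q) (κ τ : Tri3 g) (y : Fin 3 → Fin q × Fin q) (U : Finset (Fin 3))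
    (h : Fin 3) (hτ : τ ≠ κ) (hh : cel τ h = cel κ h) :
    Ex (uq q) (fun Z : Cel g → Fin q × Fin q =>
      if Cl (mxU κ y Z U) τ then (1 : ℝ) else 0) ≤ 1 / (q : ℝ) ^ 3 := by
  rw [Ex_two (uq1 hq) _ (cel τ (h + 1 + 1)) (cel τ (h + 1))]
  obtain ⟨n1, n2, n3⟩ := add_ne h
  have hix : ixt τ h = ixt κ h := (Prod.mk.inj hh).2
  have hout : ∀ h', h' ≠ h → ∀ h'' : Fin 3, cel κ h'' ≠ cel τ h' := by
    intro h' hh' h'' e
    have e1 : h'' = h' := (Prod.mk.inj e).1
    subst e1
    exact hτ (ixt_share (Ne.symm hh') hix (Prod.mk.inj e).2.symm)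
  have hpt : ∀ Z : Cel g → Fin q × Fin q, ∑ a, uq q a * ∑ a', uq q a' *
      (if Cl (mxU κ y (Function.update (Function.update Z (cel τ (h + 1)) a)
        (cel τ (h + 1 + 1)) a') U) τ then (1 : ℝ) else 0) ≤ 1 / (q : ℝ) ^ 3 := by
    intro Z
    obtain ⟨w, hw⟩ : ∃ w, w = mxU κ y Z U (cel τ h) := ⟨_, rfl⟩
    refine le_trans ?_ (fit_sum hq w.1 w.2)
    refine Finset.sum_le_sum fun a _ => mul_le_mul_of_nonneg_left ?_ (uq0 a)
    refine Finset.sum_le_sum fun a' _ => mul_le_mul_of_nonneg_left ?_ (uq0 a')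
    by_cases hc : Cl (mxU κ y (Function.update (Function.update Z (cel τ (h + 1)) a)
        (cel τ (h + 1 + 1)) a') U) τ
    · rw [if_pos hc, if_pos]
      have e0 : mxU κ y (Function.update (Function.update Z (cel τ (h + 1)) a)
        (cel τ (h + 1 + 1)) a') U (cel τ h) = w := by
        rw [hw, hh]
        by_cases hU : h ∈ U
        · rw [mxU_in κ y _ hU, mxU_in κ y _ hU]
        · have hU' : ∀ h' ∈ U, cel κ h' ≠ cel κ h := by
            intro h' hh' e
            exact hU (cel_inj κ e ▸ hh')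
          rw [mxU_out κ y _ hU', mxU_out κ y _ hU', ← hh, Function.update_of_ne
            (fun e => n2 (cel_inj τ e).symm), Function.update_of_ne
            (fun e => n1 (cel_inj τ e).symm)]
      have e1 : mxU κ y (Function.update (Function.update Z (cel τ (h + 1)) a)
        (cel τ (h + 1 + 1)) a') U (cel τ (h + 1)) = a := by
        rw [mxU_out κ y _ (fun h' _ => hout (h + 1) n1 h'), Function.update_of_ne
            (fun e => n3 (cel_inj τ e).symm), Function.update_self]
      have e2 : mxU κ y (Function.update (Function.update Z (cel τ (h + 1)) a)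
        (cel τ (h + 1 + 1)) a') U (cel τ (h + 1 + 1)) = a' := by
        rw [mxU_out κ y _ (fun h' _ => hout (h + 1 + 1) n2 h'), Function.update_self]
      have c0 := hc h
      have c1 := hc (h + 1)
      have c2 := hc (h + 1 + 1)
      rw [three_add] at c2
      rw [e0, e1] at c0
      rw [e1, e2] at c1
      rw [e2, e0] at c2
      exact ⟨c0.symm, c1, c2⟩
    · rw [if_neg hc]
      split_ifs <;> norm_num
  refine (Ex_mono uq0 hpt).trans (le_of_eq ?_)
  exact Ex_const (uq1 hq) _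

open Classical in
/-- The planted triple without one of the planted edges. -/
lemma cl_self (hq : 1 ≤ q) (κ : Tri3 g) (y : Fin 3 → Fin q × Fin q) (U : Finset (Fin 3))
    (hU : U ≠ univ) :
    Ex (uq q) (fun Z : Cel g → Fin q × Fin q =>
      if Cl (mxU κ y Z U) κ then (1 : ℝ) else 0) ≤ 1 / (q : ℝ) ^ 2 := by
  obtain ⟨h, hh⟩ : ∃ h, h ∉ U := by
    by_contra hcon
    push Not at hcon
    exact hU (Finset.eq_univ_iff_forall.2 hcon)
  rw [Ex_resample (uq1 hq) _ (cel κ h)]
  obtain ⟨n1, n2, n3⟩ := add_ne h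
  have hU' : ∀ h' ∈ U, cel κ h' ≠ cel κ h := by
    intro h' hh' e
    exact hh (cel_inj κ e ▸ hh')
  have hpt : ∀ Z : Cel g → Fin q × Fin q, ∑ a, uq q a *
      (if Cl (mxU κ y (Function.update Z (cel κ h) a) U) κ then (1 : ℝ) else 0) ≤
      1 / (q : ℝ) ^ 2 := by
    intro Z
    have e1 : ∀ a h', h' ≠ h → mxU κ y (Function.update Z (cel κ h) a) U (cel κ h') =
        mxU κ y Z U (cel κ h') := by
      intro a h' hh'
      by_cases hU1 : h' ∈ U
      · rw [mxU_in κ y _ hU1, mxU_in κ y _ hU1]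
      · have hU2 : ∀ h'' ∈ U, cel κ h'' ≠ cel κ h' := by
          intro h'' hh'' e
          exact hU1 (cel_inj κ e ▸ hh'')
        rw [mxU_out κ y _ hU2, mxU_out κ y _ hU2, Function.update_of_ne
          (fun e => hh' (cel_inj κ e))]
    have h1 : ∀ a, Cl (mxU κ y (Function.update Z (cel κ h) a) U) κ →
        a = ((mxU κ y Z U (cel κ (h + 1 + 1))).2, (mxU κ y Z U (cel κ (h + 1))).1) := by
      intro a ha
      have c0 := ha h
      have c2 := ha (h + 1 + 1)
      rw [three_add] at c2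
      rw [mxU_out κ y _ hU', Function.update_self, e1 a _ n1] at c0
      rw [mxU_out κ y _ hU', Function.update_self, e1 a _ n2] at c2
      exact Prod.ext c2.symm c0
    have h2 : ∑ a, (if Cl (mxU κ y (Function.update Z (cel κ h) a) U) κ then (1 : ℝ) else 0) ≤
        1 := by
      rw [Finset.sum_boole]
      have : (univ.filter (fun a => Cl (mxU κ y (Function.update Z (cel κ h) a) U) κ)).card ≤
          1 := by
        rw [Finset.card_le_one]
        intro a ha b hb
        rw [h1 a (Finset.mem_filter.1 ha).2, h1 b (Finset.mem_filter.1 hb).2]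
      exact_mod_cast this
    unfold uq
    rw [← Finset.mul_sum]
    calc _ ≤ (1 / (q : ℝ) ^ 2) * 1 := mul_le_mul_of_nonneg_left h2 (by positivity)
      _ = _ := mul_one _
  refine (Ex_mono uq0 hpt).trans (le_of_eq ?_)
  exact Ex_const (uq1 hq) _

open Classical in
/-- The number of triples through a position. -/
lemma cel_count (h : Fin 3) (c : Cel g) : (univ.filter (fun τ : Tri3 g => cel τ h = c)).card ≤ g := by
  have h1 := Finset.card_le_card_of_injOn (s := univ.filter (fun τ : Tri3 g => cel τ h = c))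
      (t := univ) (fun τ => if h = 0 then τ.2.2 else if h = 1 then τ.1 else τ.2.1)
      (fun κ _ => Finset.mem_coe.2 (Finset.mem_univ _)) (by
        intro τ hτ τ' hτ' e
        have e1 := (Finset.mem_filter.1 (Finset.mem_coe.1 hτ)).2
        have e2 := (Finset.mem_filter.1 (Finset.mem_coe.1 hτ')).2
        have e3 := (Prod.mk.inj (e1.trans e2.symm)).2
        obtain ⟨a, b, c⟩ := τ
        obtain ⟨a', b', c'⟩ := τ'
        fin_cases h <;> simp [ixt] at e e3 ⊢ <;> tauto)
  rwa [Finset.card_univ, Fintype.card_fin] at h1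

open Classical in
/-- The probability that the planted edges interfere with other triples. -/
lemma gdT_prob (hq : 1 ≤ q) (κ : Tri3 g) (y : Fin 3 → Fin q × Fin q) :
    Ex (uq q) (fun Z : Cel g → Fin q × Fin q => if ¬ GdT κ y Z then (1 : ℝ) else 0) ≤
      24 * (1 / (q : ℝ) ^ 2 + g / (q : ℝ) ^ 3) := by
  obtain ⟨e, he⟩ : ∃ e : Finset (Fin 3) → Fin 3 → Tri3 g → (Cel g → Fin q × Fin q) → ℝ,
    e = fun U h τ Z => if U ≠ univ ∧ cel τ h = cel κ h ∧ Cl (mxU κ y Z U) τ then 1 else 0 :=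
    ⟨_, rfl⟩
  have he0 : ∀ U h τ Z, 0 ≤ e U h τ Z := by
    intro U h τ Z; rw [he]; dsimp only; split_ifs <;> norm_num
  have h1 : ∀ Z : Cel g → Fin q × Fin q, (if ¬ GdT κ y Z then (1 : ℝ) else 0) ≤
      ∑ U, ∑ h, ∑ τ, e U h τ Z := by
    intro Z
    by_cases hG : GdT κ y Z
    · rw [if_neg (not_not.2 hG)]
      exact Finset.sum_nonneg fun U _ => Finset.sum_nonneg fun h _ =>
        Finset.sum_nonneg fun τ _ => he0 _ _ _ _
    · rw [if_pos hG]
      unfold GdT at hG
      push Not at hG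
      obtain ⟨U, τ, h, hU, hh, hc⟩ := hG
      have h2 : e U h τ Z = 1 := by
        rw [he]
        dsimp only
        rw [if_pos ⟨hU, hh, hc⟩]
      rw [← h2]
      refine le_trans ?_ (Finset.single_le_sum (fun U _ => Finset.sum_nonneg fun h _ =>
        Finset.sum_nonneg fun τ _ => he0 U h τ Z) (Finset.mem_univ U))
      refine le_trans ?_ (Finset.single_le_sum (fun h _ =>
        Finset.sum_nonneg fun τ _ => he0 U h τ Z) (Finset.mem_univ h))
      exact Finset.single_le_sum (fun τ _ => he0 U h τ Z) (Finset.mem_univ τ)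
  refine (Ex_mono uq0 h1).trans ?_
  rw [Ex_sum]
  have h2 : ∀ U h, ∑ τ, Ex (uq q) (e U h τ) ≤ 1 / (q : ℝ) ^ 2 + g / (q : ℝ) ^ 3 := by
    intro U h
    have h3 : ∀ τ, Ex (uq q) (e U h τ) ≤ (if τ = κ then 1 / (q : ℝ) ^ 2 else 0) +
        (1 / (q : ℝ) ^ 3) * (if cel τ h = cel κ h then (1 : ℝ) else 0) := by
      intro τ
      have hz : ∀ F : (Cel g → Fin q × Fin q) → ℝ, (∀ Z, F Z = 0) → Ex (uq q) F = 0 := by
        intro F hF
        unfold Ex
        exact Finset.sum_eq_zero fun Z _ => by rw [hF, mul_zero]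
      by_cases hU : U = univ
      · rw [hz (e U h τ) (fun Z => by rw [he]; dsimp only; rw [if_neg (fun hc => hc.1 hU)])]
        positivity
      · by_cases hh : cel τ h = cel κ h
        · have e1 : e U h τ = fun Z => if Cl (mxU κ y Z U) τ then (1 : ℝ) else 0 := by
            funext Z
            rw [he]
            dsimp only
            by_cases hc : Cl (mxU κ y Z U) τ
            · rw [if_pos hc, if_pos ⟨hU, hh, hc⟩]
            · rw [if_neg hc, if_neg (fun h' => hc h'.2.2)]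
          rw [e1, if_pos hh, mul_one]
          by_cases hτ : τ = κ
          · rw [if_pos hτ, hτ]
            have := cl_self hq κ y U hU
            have : (0 : ℝ) ≤ 1 / (q : ℝ) ^ 3 := by positivity
            linarith
          · rw [if_neg hτ, zero_add]
            exact cl_other hq κ τ y U h hτ hh
        · rw [hz (e U h τ) (fun Z => by rw [he]; dsimp only; rw [if_neg (fun hc => hh hc.2.1)])]
          positivity
    refine (Finset.sum_le_sum fun τ _ => h3 τ).trans ?_
    rw [Finset.sum_add_distrib, ← Finset.mul_sum, Finset.sum_boole, Finset.sum_ite_eq' univ κ,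
      if_pos (Finset.mem_univ κ)]
    have h4 : (((univ.filter (fun τ : Tri3 g => cel τ h = cel κ h)).card : ℕ) : ℝ) ≤ g := by
      exact_mod_cast cel_count h (cel κ h)
    have h5 := mul_le_mul_of_nonneg_left h4 (by positivity : (0 : ℝ) ≤ 1 / (q : ℝ) ^ 3)
    have h6 : 1 / (q : ℝ) ^ 3 * g = g / (q : ℝ) ^ 3 := by ring
    linarith
  have h3 : ∀ U ∈ (univ : Finset (Finset (Fin 3))), Ex (uq q) (fun Z : Cel g → Fin q × Fin q =>
      ∑ h, ∑ τ, e U h τ Z) ≤ 3 * (1 / (q : ℝ) ^ 2 + g / (q : ℝ) ^ 3) := by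
    intro U _
    rw [Ex_sum]
    have h4 : ∀ h ∈ (univ : Finset (Fin 3)), Ex (uq q) (fun Z : Cel g → Fin q × Fin q =>
        ∑ τ, e U h τ Z) ≤ 1 / (q : ℝ) ^ 2 + g / (q : ℝ) ^ 3 := by
      intro h _
      rw [Ex_sum]
      exact h2 U h
    have h5 := Finset.sum_le_card_nsmul _ _ _ h4
    rw [Finset.card_univ, Fintype.card_fin, nsmul_eq_mul] at h5
    exact_mod_cast h5
  have h4 := Finset.sum_le_card_nsmul _ _ _ h3
  rw [Finset.card_univ, Fintype.card_finset, Fintype.card_fin, nsmul_eq_mul] at h4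
  refine h4.trans (le_of_eq ?_)
  push_cast
  ring

end Unif

end Pool.Agent.W964.Wd
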