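import Mathlib
import Pool.Agent.W964.Wd.Td.Prob

/-!
Every word of the random edge list depends on few choices.
-/

set_option linter.unusedSectionVars false

namespace Pool.Agent.W964.Wd

open Finset H568R2 H592R3 Pool.Agent.W964.Pram

section Rel
variable {g q : ℕ}

/-- One of two values. -/
def sel {A : Type*} (b : Bool) (a : A × A) : A := if b = true then a.2 else a.1

/-- A triple is closed for some choice between two values of every position. -/
def Rl (W : Cel g → (Fin q × Fin q) × (Fin q × Fin q)) (τ : Tri3 g) : Prop :=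
  ∃ o : Fin 3 → Bool, ∀ h : Fin 3, (sel (o h) (W (cel τ h))).2 =
    (sel (o (h + 1)) (W (cel τ (h + 1)))).1

/-- Few triples through a position are relevant. -/
def GdP (r : ℕ) (Y0 Y1 : Cel g → Fin q × Fin q) : Prop :=
  open Classical in
  ∀ γ α : Fin g, (univ.filter (fun β : Fin g =>
    Rl (fun c => (Y0 c, Y1 c)) (α, (β, γ)))).card ≤ r

lemma rl_of_cl {Y0 Y1 : Cel g → Fin q × Fin q} {x : Cel g → Bool} {τ : Tri3 g}
    (h : Cl (mix Y0 Y1 x) τ) : Rl (fun c => (Y0 c, Y1 c)) τ :=
  ⟨fun h => x (cel τ h), fun i => h i⟩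

open Classical in
/-- The words are shallow decision trees. -/
lemma enc_mt {r : ℕ} {Y0 Y1 : Cel g → Fin q × Fin q} (hG : GdP r Y0 Y1) (c : Cel g) :
    MT (1 + 2 * r) (fun x => enc g q (mix Y0 Y1 x) c) := by
  obtain ⟨k, γ, α⟩ := c
  obtain ⟨R, hR⟩ : ∃ R, R = univ.filter (fun β : Fin g =>
    Rl (fun c => (Y0 c, Y1 c)) (α, (β, γ))) := ⟨_, rfl⟩
  have hRc : R.card ≤ r := by rw [hR]; exact hG γ α
  obtain ⟨D, hD⟩ : ∃ D : Finset (Cel g), D = {(k, (γ, α))} ∪
    (R.image (fun β => ((0 : Fin 3), (α, β))) ∪ R.image (fun β => ((1 : Fin 3), (β, γ)))) :=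
    ⟨_, rfl⟩
  have hDc : D.card ≤ 1 + 2 * r := by
    rw [hD]
    have h1 := Finset.card_union_le ({(k, (γ, α))} : Finset (Cel g))
      (R.image (fun β => ((0 : Fin 3), (α, β))) ∪ R.image (fun β => ((1 : Fin 3), (β, γ))))
    have h2 := Finset.card_union_le (R.image (fun β => ((0 : Fin 3), (α, β))))
      (R.image (fun β => ((1 : Fin 3), (β, γ))))
    have h3 : (R.image (fun β => ((0 : Fin 3), (α, β)))).card ≤ R.card := Finset.card_image_le
    have h4 : (R.image (fun β => ((1 : Fin 3), (β, γ)))).card ≤ R.card := Finset.card_image_le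
    rw [Finset.card_singleton] at h1
    omega
  refine MT.of_dep _ D _ hDc ?_
  intro x y hxy
  have hself : mix Y0 Y1 x (k, (γ, α)) = mix Y0 Y1 y (k, (γ, α)) := by
    unfold mix
    rw [hxy (k, (γ, α)) (by rw [hD]; simp)]
  by_cases hk : k = 2
  · subst hk
    have key : ∀ x y : Cel g → Bool, (∀ i ∈ D, x i = y i) → ∀ β, Cl (mix Y0 Y1 x) (α, (β, γ)) →
        Cl (mix Y0 Y1 y) (α, (β, γ)) := by
      intro x y hxy β hβ
      have hβR : β ∈ R := by
        rw [hR]
        exact Finset.mem_filter.2 ⟨Finset.mem_univ _, rl_of_cl hβ⟩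
      refine (cl_congr ?_).1 hβ
      intro h
      unfold mix
      rw [hxy]
      rw [hD]
      fin_cases h
      · apply Finset.mem_union_right
        apply Finset.mem_union_left
        exact Finset.mem_image_of_mem (fun β => ((0 : Fin 3), (α, β))) hβR
      · apply Finset.mem_union_right
        apply Finset.mem_union_right
        exact Finset.mem_image_of_mem (fun β => ((1 : Fin 3), (β, γ))) hβR
      · apply Finset.mem_union_left
        exact Finset.mem_singleton.2 rfl
    have hiff : (∃ β, Cl (mix Y0 Y1 x) (α, (β, γ))) ↔ ∃ β, Cl (mix Y0 Y1 y) (α, (β, γ)) :=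
      ⟨fun ⟨β, hβ⟩ => ⟨β, key x y hxy β hβ⟩,
        fun ⟨β, hβ⟩ => ⟨β, key y x (fun i hi => (hxy i hi).symm) β hβ⟩⟩
    unfold enc
    by_cases h5 : ∃ β, Cl (mix Y0 Y1 x) (α, (β, γ))
    · rw [if_pos ⟨rfl, h5⟩, if_pos ⟨rfl, hiff.1 h5⟩]
    · rw [if_neg (fun h => h5 h.2), if_neg (fun h => h5 (hiff.2 h.2)), hself]
  · unfold enc
    rw [if_neg (fun h => hk h.1), if_neg (fun h => hk h.1), hself]

/-- The distribution of the pairs of values. -/
noncomputable def uq2 (q : ℕ) : (Fin q × Fin q) × (Fin q × Fin q) → ℝ :=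
  fun c => uq q c.1 * uq q c.2

lemma uq20 (a : (Fin q × Fin q) × (Fin q × Fin q)) : 0 ≤ uq2 q a :=
  mul_nonneg (uq0 _) (uq0 _)

lemma sel_sum (hq : 1 ≤ q) (b : Bool) (F : Fin q × Fin q → ℝ) :
    ∑ a, uq2 q a * F (sel b a) = ∑ s, uq q s * F s := by
  rw [Fintype.sum_prod_type]
  unfold uq2 sel
  cases b with
  | false =>
    simp only [Bool.false_eq_true, if_false]
    refine Finset.sum_congr rfl fun s _ => ?_
    have : ∀ t : Fin q × Fin q, uq q s * uq q t * F s = (uq q s * F s) * uq q t :=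
      fun t => by ring
    simp only [this]
    rw [← Finset.mul_sum, uq1 hq, mul_one]
  | true =>
    simp only [if_true]
    rw [Finset.sum_comm]
    refine Finset.sum_congr rfl fun s _ => ?_
    have : ∀ t : Fin q × Fin q, uq q t * uq q s * F s = (uq q s * F s) * uq q t :=
      fun t => by ring
    simp only [this]
    rw [← Finset.mul_sum, uq1 hq, mul_one]

lemma uq21 (hq : 1 ≤ q) : ∑ a, uq2 q a = 1 := by
  have h1 := sel_sum hq false (fun _ : Fin q × Fin q => (1 : ℝ))
  simp only [mul_one] at h1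
  rw [h1, uq1 hq]

open Classical in
/-- The probability that a triple is relevant, for a given value at its last position. -/
lemma rl_pt (hq : 1 ≤ q) (W : Cel g → (Fin q × Fin q) × (Fin q × Fin q)) (τ : Tri3 g) :
    ∑ a, uq2 q a * ∑ a', uq2 q a' *
      (if Rl (Function.update (Function.update W (cel τ 0) a) (cel τ 1) a') τ
        then (1 : ℝ) else 0) ≤ 8 / (q : ℝ) ^ 3 := by
  obtain ⟨w, hw⟩ : ∃ w, w = W (cel τ 2) := ⟨_, rfl⟩
  have h01 : cel τ 0 ≠ cel τ 1 := fun e => by
    have := cel_inj τ e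
    revert this; decide
  have h02 : cel τ 2 ≠ cel τ 0 := fun e => by
    have := cel_inj τ e
    revert this; decide
  have h12 : cel τ 2 ≠ cel τ 1 := fun e => by
    have := cel_inj τ e
    revert this; decide
  have h1 : ∀ a a' : (Fin q × Fin q) × (Fin q × Fin q),
      (if Rl (Function.update (Function.update W (cel τ 0) a) (cel τ 1) a') τ
        then (1 : ℝ) else 0) ≤ ∑ o : Fin 3 → Bool,
      (if (sel (o 0) a).1 = (sel (o 2) w).2 ∧ (sel (o 0) a).2 = (sel (o 1) a').1 ∧
        (sel (o 1) a').2 = (sel (o 2) w).1 then (1 : ℝ) else 0) := by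
    intro a a'
    have h0 : ∀ o : Fin 3 → Bool, (0 : ℝ) ≤
      (if (sel (o 0) a).1 = (sel (o 2) w).2 ∧ (sel (o 0) a).2 = (sel (o 1) a').1 ∧
        (sel (o 1) a').2 = (sel (o 2) w).1 then (1 : ℝ) else 0) := by
      intro o; split_ifs <;> norm_num
    by_cases hR : Rl (Function.update (Function.update W (cel τ 0) a) (cel τ 1) a') τ
    · rw [if_pos hR]
      obtain ⟨o, ho⟩ := hR
      refine le_trans ?_ (Finset.single_le_sum (fun o _ => h0 o) (Finset.mem_univ o))
      rw [if_pos]
      have e0 : (Function.update (Function.update W (cel τ 0) a) (cel τ 1) a') (cel τ 0) = a := by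
        rw [Function.update_of_ne h01, Function.update_self]
      have e1 : (Function.update (Function.update W (cel τ 0) a) (cel τ 1) a') (cel τ 1) = a' := by
        rw [Function.update_self]
      have e2 : (Function.update (Function.update W (cel τ 0) a) (cel τ 1) a') (cel τ 2) = w := by
        rw [Function.update_of_ne h12, Function.update_of_ne h02, hw]
      have c0 := ho 0
      have c1 := ho 1
      have c2 := ho 2
      have f1 : (0 : Fin 3) + 1 = 1 := by decide
      have f2 : (1 : Fin 3) + 1 = 2 := by decide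
      have f3 : (2 : Fin 3) + 1 = 0 := by decide
      rw [f1, e0, e1] at c0
      rw [f2, e1, e2] at c1
      rw [f3, e2, e0] at c2
      exact ⟨c2.symm, c0, c1⟩
    · rw [if_neg hR]
      exact Finset.sum_nonneg fun o _ => h0 o
  calc ∑ a, uq2 q a * ∑ a', uq2 q a' *
      (if Rl (Function.update (Function.update W (cel τ 0) a) (cel τ 1) a') τ
        then (1 : ℝ) else 0)
      ≤ ∑ a, uq2 q a * ∑ a', uq2 q a' * ∑ o : Fin 3 → Bool,
      (if (sel (o 0) a).1 = (sel (o 2) w).2 ∧ (sel (o 0) a).2 = (sel (o 1) a').1 ∧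
        (sel (o 1) a').2 = (sel (o 2) w).1 then (1 : ℝ) else 0) :=
        Finset.sum_le_sum fun a _ => mul_le_mul_of_nonneg_left
          (Finset.sum_le_sum fun a' _ => mul_le_mul_of_nonneg_left (h1 a a') (uq20 a')) (uq20 a)
    _ = ∑ o : Fin 3 → Bool, ∑ a, uq2 q a * ∑ a', uq2 q a' *
      (if (sel (o 0) a).1 = (sel (o 2) w).2 ∧ (sel (o 0) a).2 = (sel (o 1) a').1 ∧
        (sel (o 1) a').2 = (sel (o 2) w).1 then (1 : ℝ) else 0) := by
        simp only [Finset.mul_sum]
        rw [Finset.sum_congr rfl fun a _ => Finset.sum_comm, Finset.sum_comm]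
    _ ≤ ∑ o : Fin 3 → Bool, 1 / (q : ℝ) ^ 3 := by
        refine Finset.sum_le_sum fun o _ => ?_
        refine le_trans (le_of_eq ?_) (fit_sum hq (sel (o 2) w).1 (sel (o 2) w).2)
        rw [← sel_sum hq (o 0) (fun s => ∑ a' : Fin q × Fin q, uq q a' *
          (if s.1 = (sel (o 2) w).2 ∧ s.2 = a'.1 ∧ a'.2 = (sel (o 2) w).1
            then (1 : ℝ) else 0))]
        refine Finset.sum_congr rfl fun a _ => ?_
        congr 1
        exact sel_sum hq (o 1) (fun s' => (if (sel (o 0) a).1 = (sel (o 2) w).2 ∧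
          (sel (o 0) a).2 = s'.1 ∧ s'.2 = (sel (o 2) w).1 then (1 : ℝ) else 0))
    _ = 8 / (q : ℝ) ^ 3 := by
        rw [Finset.sum_const, Finset.card_univ, Fintype.card_fun, Fintype.card_fin,
          Fintype.card_bool, nsmul_eq_mul]
        push_cast
        ring

open Classical in
/-- The probability that several triples are relevant. -/
lemma rl_many (hq : 1 ≤ q) (γ α : Fin g) (R : Finset (Fin g)) :
    Ex (uq2 q) (fun W : Cel g → (Fin q × Fin q) × (Fin q × Fin q) =>
      ∏ β ∈ R, (if Rl W (α, (β, γ)) then (1 : ℝ) else 0)) ≤ (8 / (q : ℝ) ^ 3) ^ R.card := by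
  induction R using Finset.induction_on with
  | empty =>
    simp only [Finset.prod_empty, Finset.card_empty, pow_zero]
    exact (Ex_const (uq21 hq) _).le
  | insert β₀ R hβ ih =>
    rw [Finset.card_insert_of_notMem hβ, pow_succ]
    rw [Ex_two (uq21 hq) _ (cel (α, (β₀, γ)) 1) (cel (α, (β₀, γ)) 0)]
    have hpt : ∀ W : Cel g → (Fin q × Fin q) × (Fin q × Fin q),
        ∑ a, uq2 q a * ∑ a', uq2 q a' * (∏ β ∈ insert β₀ R,
          (if Rl (Function.update (Function.update W (cel (α, (β₀, γ)) 0) a)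
            (cel (α, (β₀, γ)) 1) a') (α, (β, γ)) then (1 : ℝ) else 0)) ≤
        (8 / (q : ℝ) ^ 3) * ∏ β ∈ R, (if Rl W (α, (β, γ)) then (1 : ℝ) else 0) := by
      intro W
      have h1 : ∀ a a', (∏ β ∈ insert β₀ R,
          (if Rl (Function.update (Function.update W (cel (α, (β₀, γ)) 0) a)
            (cel (α, (β₀, γ)) 1) a') (α, (β, γ)) then (1 : ℝ) else 0)) =
          (if Rl (Function.update (Function.update W (cel (α, (β₀, γ)) 0) a)
            (cel (α, (β₀, γ)) 1) a') (α, (β₀, γ)) then (1 : ℝ) else 0) *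
          ∏ β ∈ R, (if Rl W (α, (β, γ)) then (1 : ℝ) else 0) := by
        intro a a'
        rw [Finset.prod_insert hβ]
        congr 1
        refine Finset.prod_congr rfl fun β hβR => ?_
        have hne : β ≠ β₀ := fun e => hβ (e ▸ hβR)
        have e : ∀ h, (Function.update (Function.update W (cel (α, (β₀, γ)) 0) a)
            (cel (α, (β₀, γ)) 1) a') (cel (α, (β, γ)) h) = W (cel (α, (β, γ)) h) := by
          intro h
          have n1 : cel (α, (β, γ)) h ≠ cel (α, (β₀, γ)) 1 := by
            intro e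
            obtain ⟨e1, e2⟩ := Prod.mk.inj e
            subst e1
            exact hne (Prod.mk.inj e2).1
          have n0 : cel (α, (β, γ)) h ≠ cel (α, (β₀, γ)) 0 := by
            intro e
            obtain ⟨e1, e2⟩ := Prod.mk.inj e
            subst e1
            exact hne (Prod.mk.inj e2).2
          rw [Function.update_of_ne n1, Function.update_of_ne n0]
        have hiff : Rl (Function.update (Function.update W (cel (α, (β₀, γ)) 0) a)
            (cel (α, (β₀, γ)) 1) a') (α, (β, γ)) ↔ Rl W (α, (β, γ)) := by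
          unfold Rl
          simp only [e]
        by_cases hR : Rl W (α, (β, γ))
        · rw [if_pos hR, if_pos (hiff.2 hR)]
        · rw [if_neg hR, if_neg (fun h => hR (hiff.1 h))]
      simp only [h1]
      have h2 : ∀ a, ∑ a', uq2 q a' *
          ((if Rl (Function.update (Function.update W (cel (α, (β₀, γ)) 0) a)
            (cel (α, (β₀, γ)) 1) a') (α, (β₀, γ)) then (1 : ℝ) else 0) *
          ∏ β ∈ R, (if Rl W (α, (β, γ)) then (1 : ℝ) else 0)) =
          (∑ a', uq2 q a' *
          (if Rl (Function.update (Function.update W (cel (α, (β₀, γ)) 0) a)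
            (cel (α, (β₀, γ)) 1) a') (α, (β₀, γ)) then (1 : ℝ) else 0)) *
          ∏ β ∈ R, (if Rl W (α, (β, γ)) then (1 : ℝ) else 0) := by
        intro a
        rw [Finset.sum_mul]
        exact Finset.sum_congr rfl fun a' _ => by ring
      simp only [h2]
      have h3 : ∑ a, uq2 q a * ((∑ a', uq2 q a' *
          (if Rl (Function.update (Function.update W (cel (α, (β₀, γ)) 0) a)
            (cel (α, (β₀, γ)) 1) a') (α, (β₀, γ)) then (1 : ℝ) else 0)) *
          ∏ β ∈ R, (if Rl W (α, (β, γ)) then (1 : ℝ) else 0)) =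
          (∑ a, uq2 q a * ∑ a', uq2 q a' *
          (if Rl (Function.update (Function.update W (cel (α, (β₀, γ)) 0) a)
            (cel (α, (β₀, γ)) 1) a') (α, (β₀, γ)) then (1 : ℝ) else 0)) *
          ∏ β ∈ R, (if Rl W (α, (β, γ)) then (1 : ℝ) else 0) := by
        rw [Finset.sum_mul]
        exact Finset.sum_congr rfl fun a _ => by ring
      rw [h3]
      apply mul_le_mul_of_nonneg_right (rl_pt hq W (α, (β₀, γ)))
      exact Finset.prod_nonneg fun β _ => by split_ifs <;> norm_num
    refine (Ex_mono uq20 hpt).trans ?_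
    rw [Ex_smul, mul_comm]
    exact mul_le_mul_of_nonneg_right ih (by positivity)

open Classical in
/-- The probability that many triples are relevant. -/
lemma gdP_prob (hq : 1 ≤ q) (r : ℕ) :
    Ex (uq q) (fun Y0 : Cel g → Fin q × Fin q => Ex (uq q) (fun Y1 : Cel g → Fin q × Fin q =>
      if ¬ GdP r Y0 Y1 then (1 : ℝ) else 0)) ≤
      (g : ℝ) ^ 2 * (8 * g / (q : ℝ) ^ 3) ^ (r + 1) := by
  have h0 := Ex_prod (I := Cel g) (uq q) (uq q)
    (fun ω => if ¬ GdP r (fun i => (ω i).1) (fun i => (ω i).2) then (1 : ℝ) else 0)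
  dsimp only at h0
  rw [← h0]
  obtain ⟨e, he⟩ : ∃ e : Fin g → Fin g → Finset (Fin g) →
      (Cel g → (Fin q × Fin q) × (Fin q × Fin q)) → ℝ, e = fun γ α R W =>
      ∏ β ∈ R, (if Rl W (α, (β, γ)) then (1 : ℝ) else 0) := ⟨_, rfl⟩
  have he0 : ∀ γ α R W, 0 ≤ e γ α R W := by
    intro γ α R W
    rw [he]
    exact Finset.prod_nonneg fun β _ => by split_ifs <;> norm_num
  have hpt : ∀ W : Cel g → (Fin q × Fin q) × (Fin q × Fin q),
      (if ¬ GdP r (fun i => (W i).1) (fun i => (W i).2) then (1 : ℝ) else 0) ≤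
      ∑ γ : Fin g, ∑ α : Fin g, ∑ R ∈ (univ : Finset (Fin g)).powersetCard (r + 1), e γ α R W := by
    intro W
    by_cases hG : GdP r (fun i => (W i).1) (fun i => (W i).2)
    · rw [if_neg (not_not.2 hG)]
      exact Finset.sum_nonneg fun γ _ => Finset.sum_nonneg fun α _ =>
        Finset.sum_nonneg fun R _ => he0 _ _ _ _
    · rw [if_pos hG]
      unfold GdP at hG
      push Not at hG
      obtain ⟨γ, α, hc⟩ := hG
      obtain ⟨R, hR1, hR2⟩ := Finset.exists_subset_card_eq (Nat.succ_le_of_lt hc)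
      have h2 : e γ α R W = 1 := by
        rw [he]
        dsimp only
        apply Finset.prod_eq_one
        intro β hβ
        rw [if_pos]
        exact (Finset.mem_filter.1 (hR1 hβ)).2
      rw [← h2]
      refine le_trans ?_ (Finset.single_le_sum (fun γ _ => Finset.sum_nonneg fun α _ =>
        Finset.sum_nonneg fun R _ => he0 γ α R W) (Finset.mem_univ γ))
      refine le_trans ?_ (Finset.single_le_sum (fun α _ =>
        Finset.sum_nonneg fun R _ => he0 γ α R W) (Finset.mem_univ α))
      exact Finset.single_le_sum (fun R _ => he0 γ α R W)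
        (Finset.mem_powersetCard.2 ⟨Finset.subset_univ R, hR2⟩)
  refine (Ex_mono uq20 hpt).trans ?_
  rw [Ex_sum]
  have h1 : ∀ γ ∈ (univ : Finset (Fin g)), Ex (uq2 q) (fun W => ∑ α : Fin g,
      ∑ R ∈ (univ : Finset (Fin g)).powersetCard (r + 1), e γ α R W) ≤
      (g : ℝ) * (8 * g / (q : ℝ) ^ 3) ^ (r + 1) := by
    intro γ _
    rw [Ex_sum]
    have h2 : ∀ α ∈ (univ : Finset (Fin g)), Ex (uq2 q) (fun W =>
        ∑ R ∈ (univ : Finset (Fin g)).powersetCard (r + 1), e γ α R W) ≤
        (8 * g / (q : ℝ) ^ 3) ^ (r + 1) := by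
      intro α _
      rw [Ex_sum]
      have h3 : ∀ R ∈ (univ : Finset (Fin g)).powersetCard (r + 1),
          Ex (uq2 q) (e γ α R) ≤ (8 / (q : ℝ) ^ 3) ^ (r + 1) := by
        intro R hR
        have h4 := rl_many hq γ α R
        rw [(Finset.mem_powersetCard.1 hR).2] at h4
        rw [he]
        exact h4
      have h4 := Finset.sum_le_card_nsmul _ _ _ h3
      rw [Finset.card_powersetCard, Finset.card_univ, Fintype.card_fin, nsmul_eq_mul] at h4
      refine h4.trans ?_
      have h5 : ((g.choose (r + 1) : ℕ) : ℝ) ≤ (g : ℝ) ^ (r + 1) := by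
        exact_mod_cast Nat.choose_le_pow g (r + 1)
      calc _ ≤ (g : ℝ) ^ (r + 1) * (8 / (q : ℝ) ^ 3) ^ (r + 1) :=
            mul_le_mul_of_nonneg_right h5 (by positivity)
        _ = _ := by rw [← mul_pow]; congr 1; ring
    have h3 := Finset.sum_le_card_nsmul _ _ _ h2
    rw [Finset.card_univ, Fintype.card_fin, nsmul_eq_mul] at h3
    exact h3
  have h2 := Finset.sum_le_card_nsmul _ _ _ h1
  rw [Finset.card_univ, Fintype.card_fin, nsmul_eq_mul] at h2
  refine h2.trans (le_of_eq ?_)
  ring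

end Rel

end Pool.Agent.W964.Wd
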