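import Mathlib
import Pool.Agent.W964.Wd.Td.Rel

/-!
Planted triangles are not noticed by parallel machines with few processors.
-/

set_option linter.unusedSectionVars false

namespace Pool.Agent.W964.Wd

open Finset H568R2 H592R3 Pool.Agent.W964.Pram

section Dom
variable {g q : ℕ}

lemma ypl_inj (h₀ : Fin 3) {a b c a' b' c' : Fin q}
    (h : ∀ h, h ≠ h₀ → ypl a b c h = ypl a' b' c' h) : a = a' ∧ b = b' ∧ c = c' := by
  fin_cases h₀
  · have h1 := h 1 (by decide)
    have h2 := h 2 (by decide)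
    obtain ⟨e1, e2⟩ := Prod.mk.inj (show (b, c) = (b', c') from h1)
    obtain ⟨e3, e4⟩ := Prod.mk.inj (show (c, a) = (c', a') from h2)
    exact ⟨e4, e1, e2⟩
  · have h1 := h 0 (by decide)
    have h2 := h 2 (by decide)
    obtain ⟨e1, e2⟩ := Prod.mk.inj (show (a, b) = (a', b') from h1)
    obtain ⟨e3, e4⟩ := Prod.mk.inj (show (c, a) = (c', a') from h2)
    exact ⟨e4, e2, e3⟩
  · have h1 := h 0 (by decide)
    have h2 := h 1 (by decide)
    obtain ⟨e1, e2⟩ := Prod.mk.inj (show (a, b) = (a', b') from h1)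
    obtain ⟨e3, e4⟩ := Prod.mk.inj (show (b, c) = (b', c') from h2)
    exact ⟨e1, e2, e4⟩

/-- Two planted edges are distributed like two random edges, up to a factor `q`. -/
lemma dom3 (hq : 1 ≤ q) (H : Finset (Fin 3)) (hH : H.card ≤ 2)
    (G : (Fin 3 → Fin q × Fin q) → ℝ) (hG0 : ∀ y, 0 ≤ G y)
    (hG : ∀ y y', (∀ h ∈ H, y h = y' h) → G y = G y') :
    (1 / (q : ℝ) ^ 3) * ∑ p : Fin q × (Fin q × Fin q), G (ypl p.1 p.2.1 p.2.2) ≤
      q * Ex (uq q) G := by
  have hqR : (0 : ℝ) < q := by exact_mod_cast hq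
  obtain ⟨h₀, hh₀⟩ : ∃ h, h ∉ H := by
    by_contra hcon
    push Not at hcon
    have : H = univ := Finset.eq_univ_iff_forall.2 hcon
    rw [this, Finset.card_univ, Fintype.card_fin] at hH
    omega
  obtain ⟨f, hf⟩ : ∃ f : (Fin q × (Fin q × Fin q)) × (Fin q × Fin q) → (Fin 3 → Fin q × Fin q),
    f = fun x => Function.update (ypl x.1.1 x.1.2.1 x.1.2.2) h₀ x.2 := ⟨_, rfl⟩
  have hinj : Function.Injective f := by
    rintro ⟨⟨a, b, c⟩, s⟩ ⟨⟨a', b', c'⟩, s'⟩ h
    rw [hf] at h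
    dsimp only at h
    have h1 : s = s' := by
      have := congrFun h h₀
      rwa [Function.update_self, Function.update_self] at this
    obtain ⟨h2, h3, h4⟩ := ypl_inj h₀ (a := a) (b := b) (c := c) (a' := a') (b' := b') (c' := c')
      (by
        intro h' hh'
        have := congrFun h h'
        rwa [Function.update_of_ne hh', Function.update_of_ne hh'] at this)
    rw [h1, h2, h3, h4]
  have hGf : ∀ x, G (f x) = G (ypl x.1.1 x.1.2.1 x.1.2.2) := by
    intro x
    rw [hf]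
    apply hG
    intro h hh
    have hne : h ≠ h₀ := by
      rintro rfl
      exact hh₀ hh
    exact Function.update_of_ne hne _ _
  have h1 : ∑ x, G (f x) = (q : ℝ) ^ 2 *
      ∑ p : Fin q × (Fin q × Fin q), G (ypl p.1 p.2.1 p.2.2) := by
    rw [Fintype.sum_prod_type, Finset.mul_sum]
    refine Finset.sum_congr rfl fun p _ => ?_
    rw [Finset.sum_congr rfl fun s _ => hGf (p, s)]
    dsimp only
    rw [Finset.sum_const, Finset.card_univ,
      Fintype.card_prod, Fintype.card_fin, nsmul_eq_mul]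
    push_cast
    ring
  have h2 : ∑ x, G (f x) ≤ ∑ y, G y := by
    rw [← Finset.sum_image (f := G) (g := f) (s := univ) (fun a _ b _ h => hinj h)]
    exact Finset.sum_le_sum_of_subset_of_nonneg (Finset.subset_univ _) (fun y _ _ => hG0 y)
  have h3 : Ex (uq q) G = (1 / (q : ℝ) ^ 6) * ∑ y, G y := by
    unfold Ex uq
    rw [Finset.mul_sum]
    refine Finset.sum_congr rfl fun y _ => ?_
    congr 1
    rw [Finset.prod_const, Finset.card_univ, Fintype.card_fin]
    rw [one_div_pow, ← pow_mul]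
  rw [h3]
  rw [h1] at h2
  calc (1 / (q : ℝ) ^ 3) * ∑ p : Fin q × (Fin q × Fin q), G (ypl p.1 p.2.1 p.2.2)
      = (1 / (q : ℝ) ^ 5) * ((q : ℝ) ^ 2 *
        ∑ p : Fin q × (Fin q × Fin q), G (ypl p.1 p.2.1 p.2.2)) := by
        field_simp
    _ ≤ (1 / (q : ℝ) ^ 5) * ∑ y, G y := mul_le_mul_of_nonneg_left h2 (by positivity)
    _ = q * ((1 / (q : ℝ) ^ 6) * ∑ y, G y) := by field_simp

/-- The bound of the number of triples through given positions. -/
def BT (g s : ℕ) : ℕ := if s = 1 then g else 1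

open Classical in
lemma cel_img (H : Finset (Fin 3)) (V : Finset (Cel g)) (hH1 : 1 ≤ H.card) :
    (univ.filter (fun κ : Tri3 g => H.image (cel κ) = V)).card ≤ BT g H.card := by
  have key : ∀ κ κ' : Tri3 g, H.image (cel κ) = V → H.image (cel κ') = V → ∀ h ∈ H,
      cel κ h = cel κ' h := by
    intro κ κ' h1 h2 h hh
    have h3 : cel κ h ∈ H.image (cel κ') := by
      rw [h2, ← h1]
      exact Finset.mem_image_of_mem _ hh
    obtain ⟨h', _, e⟩ := Finset.mem_image.1 h3
    have e1 : h' = h := (Prod.mk.inj e).1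
    rw [← e, e1]
  unfold BT
  by_cases hc : H.card = 1
  · rw [if_pos hc]
    obtain ⟨h, rfl⟩ := Finset.card_eq_one.1 hc
    rcases (univ.filter (fun κ : Tri3 g => ({h} : Finset (Fin 3)).image (cel κ) = V)).eq_empty_or_nonempty
      with h0 | ⟨κ₀, h0⟩
    · rw [h0, Finset.card_empty]
      exact Nat.zero_le _
    · refine le_trans (Finset.card_le_card ?_) (cel_count h (cel κ₀ h))
      intro κ hκ
      refine Finset.mem_filter.2 ⟨Finset.mem_univ _, ?_⟩
      exact key κ κ₀ (Finset.mem_filter.1 hκ).2 (Finset.mem_filter.1 h0).2 h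
        (Finset.mem_singleton_self h)
  · rw [if_neg hc, Finset.card_le_one]
    intro κ hκ κ' hκ'
    obtain ⟨h, hh, h', hh', hne⟩ := Finset.one_lt_card.1 (by omega : 1 < H.card)
    have e1 := key κ κ' (Finset.mem_filter.1 hκ).2 (Finset.mem_filter.1 hκ').2 h hh
    have e2 := key κ κ' (Finset.mem_filter.1 hκ).2 (Finset.mem_filter.1 hκ').2 h' hh'
    exact ixt_share hne (Prod.mk.inj e1).2 (Prod.mk.inj e2).2

open Classical in
/-- The event that the planted triangle is noticed. -/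
noncomputable def evt {P : ℕ} (M : Machine (ℕ × ℕ) (Cel g) P) (T : ℕ) (κ : Tri3 g)
    (Z : Cel g → Fin q × Fin q) (p : Fin q × (Fin q × Fin q)) : ℝ :=
  if GdT κ (ypl p.1 p.2.1 p.2.2) Z ∧ M.result T (enc g q Z) ≠
    M.result T (pln g q κ (ypl p.1 p.2.1 p.2.2) Z univ) then 1 else 0

open Classical in
/-- Planted triangles are not noticed. -/
theorem tri_count {P : ℕ} (M : Machine (ℕ × ℕ) (Cel g) P) (hq : 1 ≤ q)
    {Kl l A T X r : ℕ} (hT : 1 ≤ T) (hl : 1 ≤ l) (hTl : T ≤ 2 ^ l)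
    (hK : ∀ q, (M.query q).length ≤ Kl) (hm1 : Kl + 2 ≤ 2 ^ l) (hm2 : P + 3 ≤ 2 ^ l)
    (hX : X = 192 * T * (3 * l + A) * l) (hXL : 4 ≤ X) (hDg : 1 + 2 * r ≤ 3 * l + A) :
    ∑ κ : Tri3 g, Ex (uq q) (fun Z : Cel g → Fin q × Fin q =>
      (1 / (q : ℝ) ^ 3) * ∑ p, evt M T κ Z p) ≤
    q * ∑ H ∈ univ.filter (fun H : Finset (Fin 3) => 1 ≤ H.card ∧ H.card ≤ 2),
      (X : ℝ) ^ (8 * T * H.card) *
      ((if H.card < 2 then (1 : ℝ) else ((P + Fintype.card (Cel g) : ℕ) : ℝ)) *
        (BT g H.card : ℝ) +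
      (Fintype.card (Tri3 g) : ℝ) * ((1 / 2) ^ A +
        (g : ℝ) ^ 2 * (8 * g / (q : ℝ) ^ 3) ^ (r + 1))) := by
  obtain ⟨G, hG⟩ : ∃ G : Tri3 g → Finset (Fin 3) → (Cel g → Fin q × Fin q) →
      (Fin 3 → Fin q × Fin q) → ℝ, G = fun κ H Z y =>
    if Bd M Kl T 2 (enc g q) (cel κ) H Z (Function.extend (cel κ) y Z) then (1 : ℝ) else 0 :=
    ⟨_, rfl⟩
  have hG0 : ∀ κ H Z y, 0 ≤ G κ H Z y := by
    intro κ H Z y; rw [hG]; dsimp only; split_ifs <;> norm_num
  have hGdep : ∀ κ H Z y y', (∀ h ∈ H, y h = y' h) → G κ H Z y = G κ H Z y' := by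
    intro κ H Z y y' hy
    rw [hG]
    dsimp only
    have := bd_congr M Kl T 2 (enc g q) (cel κ) H Z (Y1 := Function.extend (cel κ) y Z)
      (Y1' := Function.extend (cel κ) y' Z) (by
        intro h hh
        rw [(cel_inj κ).extend_apply, (cel_inj κ).extend_apply]
        exact hy h hh)
    simp only [this]
  have hcov : ∀ κ (Z : Cel g → Fin q × Fin q) p, evt M T κ Z p ≤
      ∑ H ∈ univ.filter (fun H : Finset (Fin 3) => 1 ≤ H.card ∧ H.card ≤ 2),
        G κ H Z (ypl p.1 p.2.1 p.2.2) := by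
    intro κ Z p
    unfold evt
    by_cases hne : GdT κ (ypl p.1 p.2.1 p.2.2) Z ∧ M.result T (enc g q Z) ≠
        M.result T (pln g q κ (ypl p.1 p.2.1 p.2.2) Z univ)
    · rw [if_pos hne]
      obtain ⟨hgd, hne⟩ := hne
      have e0 : pln g q κ (ypl p.1 p.2.1 p.2.2) Z ∅ = enc g q Z := by
        rw [pln_eq hgd (by decide), mxU_empty]
      obtain ⟨H, F, hF, hmb⟩ := cover M (T := T) (L := 2) hK le_rfl
        (fun U => pln g q κ (ypl p.1 p.2.1 p.2.2) Z U)
        (fun j => pln_low κ _ Z j) (by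
          show M.result T (pln g q κ (ypl p.1 p.2.1 p.2.2) Z univ) ≠
            M.result T (pln g q κ (ypl p.1 p.2.1 p.2.2) Z ∅)
          rw [e0]
          exact Ne.symm hne)
      have hH12 : 1 ≤ H.card ∧ H.card ≤ 2 := by
        rcases hF with ⟨h1, h2, _⟩ | ⟨h1, h2, _⟩
        · omega
        · omega
      have hHs : H ∈ univ.filter (fun H : Finset (Fin 3) => 1 ≤ H.card ∧ H.card ≤ 2) :=
        Finset.mem_filter.2 ⟨Finset.mem_univ _, hH12⟩
      refine le_trans ?_ (Finset.single_le_sum (fun H _ => hG0 κ H Z _) hHs)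
      rw [hG]
      dsimp only
      rw [if_pos]
      refine ⟨F, hF, ?_⟩
      have e1 : mb (fun U => F (enc g q (mix Z (Function.extend (cel κ)
          (ypl p.1 p.2.1 p.2.2) Z) (plant (cel κ) U (fun _ => false))))) H =
          mb (fun U => F (pln g q κ (ypl p.1 p.2.1 p.2.2) Z U)) H := by
        apply mb_congr
        intro U hU
        have hUne : U ≠ univ := by
          rintro rfl
          have := Finset.card_le_card hU
          rw [Finset.card_univ, Fintype.card_fin] at this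
          omega
        rw [pln_eq hgd hUne]
        rfl
      rw [e1]
      exact hmb
    · rw [if_neg hne]
      exact Finset.sum_nonneg fun H _ => hG0 κ H Z _
  calc ∑ κ : Tri3 g, Ex (uq q) (fun Z : Cel g → Fin q × Fin q =>
      (1 / (q : ℝ) ^ 3) * ∑ p, evt M T κ Z p)
      ≤ ∑ κ : Tri3 g, Ex (uq q) (fun Z : Cel g → Fin q × Fin q =>
        ∑ H ∈ univ.filter (fun H : Finset (Fin 3) => 1 ≤ H.card ∧ H.card ≤ 2),
          ((1 / (q : ℝ) ^ 3) * ∑ p : Fin q × (Fin q × Fin q),
            G κ H Z (ypl p.1 p.2.1 p.2.2))) := by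
        refine Finset.sum_le_sum fun κ _ => Ex_mono uq0 fun Z => ?_
        rw [← Finset.mul_sum, Finset.sum_comm]
        exact mul_le_mul_of_nonneg_left (Finset.sum_le_sum fun p _ => hcov κ Z p) (by positivity)
    _ ≤ ∑ κ : Tri3 g, ∑ H ∈ univ.filter (fun H : Finset (Fin 3) => 1 ≤ H.card ∧ H.card ≤ 2),
          q * Ex (uq q) (fun Y0 : Cel g → Fin q × Fin q => Ex (uq q) (fun Y1 =>
            if Bd M Kl T 2 (enc g q) (cel κ) H Y0 Y1 then (1 : ℝ) else 0)) := by
        refine Finset.sum_le_sum fun κ _ => ?_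
        rw [Ex_sum]
        refine Finset.sum_le_sum fun H hH => ?_
        rw [← Ex_smul]
        refine Ex_mono uq0 fun Z => ?_
        refine (dom3 hq H (Finset.mem_filter.1 hH).2.2 (G κ H Z) (hG0 κ H Z)
          (hGdep κ H Z)).trans (le_of_eq ?_)
        congr 1
        rw [← Ex_comap (I := Cel g) (uq1 hq) (cel_inj κ) (fun y => G κ H Z y)]
        congr 1
        funext Y1
        rw [hG]
        dsimp only
        have := bd_congr M Kl T 2 (enc g q) (cel κ) H Z
          (Y1 := Function.extend (cel κ) (fun h => Y1 (cel κ h)) Z) (Y1' := Y1) (by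
            intro h hh
            rw [(cel_inj κ).extend_apply])
        simp only [this]
    _ = q * ∑ H ∈ univ.filter (fun H : Finset (Fin 3) => 1 ≤ H.card ∧ H.card ≤ 2),
          ∑ κ : Tri3 g, Ex (uq q) (fun Y0 : Cel g → Fin q × Fin q => Ex (uq q) (fun Y1 =>
            if Bd M Kl T 2 (enc g q) (cel κ) H Y0 Y1 then (1 : ℝ) else 0)) := by
        rw [Finset.sum_comm, Finset.mul_sum]
        refine Finset.sum_congr rfl fun H _ => ?_
        rw [Finset.mul_sum]
    _ ≤ _ := by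
        apply mul_le_mul_of_nonneg_left _ (Nat.cast_nonneg _)
        refine Finset.sum_le_sum fun H hH => ?_
        obtain ⟨hH1, hH2⟩ := (Finset.mem_filter.1 hH).2
        exact bd2 M (enc g q) uq0 (uq1 hq) cel cel_inj hT hl hTl hK hm1 hm2 le_rfl hX
          (by omega) hDg (GdP r) (fun Y0 Y1 h j => enc_mt h j) (gdP_prob hq r) H hH1
          (by omega) (BT g H.card) (fun V => cel_img H V hH1)

end Dom

end Pool.Agent.W964.Wd
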