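import Mathlib
import Pool.Agent.W964.Wd.Td.Dom
import Pool.Agent.W964.Wd.Triples
import Pool.Agent.W964.Wd.Param

/-!
Triangle detection is hard for parallel machines whose input is an edge list.
-/

set_option linter.unusedSectionVars false

namespace Pool.Agent.W964.Wd

open Finset H568R2 H592R3 Pool.Agent.W964.Pram

/-- The choice of the numbers. -/
lemma tri_numbers {ε : ℝ} (hε : 0 < ε) (hε1 : ε ≤ 1 / 3) {g : ℕ} (hg8 : 8 ≤ g)
    (hg : (224 : ℝ) ^ (6 / ε) ≤ g) : ∃ q : ℕ, 1 ≤ q ∧ q ≤ g ∧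
      (q : ℝ) ≤ 2 * (g : ℝ) ^ (1 / 3 + ε) ∧
      24 * (1 / (q : ℝ) ^ 2 + g / (q : ℝ) ^ 3) ≤ 1 / 2 ∧
      8 * g / (q : ℝ) ^ 3 ≤ (g : ℝ) ^ (-(2 * ε)) ∧ (224 : ℝ) ≤ (g : ℝ) ^ (ε / 6) := by
  have hg0 : (0 : ℝ) < g := by exact_mod_cast (by omega : 0 < g)
  have hg1 : (1 : ℝ) ≤ g := by exact_mod_cast (by omega : 1 ≤ g)
  have hbig : (224 : ℝ) ≤ (g : ℝ) ^ (ε / 6) := by
    have h2 := Real.rpow_le_rpow (by positivity) hg (by positivity : 0 ≤ ε / 6)
    rw [← Real.rpow_mul (by norm_num)] at h2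
    have h3 : 6 / ε * (ε / 6) = 1 := by field_simp
    rwa [h3, Real.rpow_one] at h2
  have hbigε : (224 : ℝ) ≤ (g : ℝ) ^ ε :=
    hbig.trans (Real.rpow_le_rpow_of_exponent_le hg1 (by linarith))
  obtain ⟨x, hx⟩ : ∃ x : ℝ, x = (g : ℝ) ^ (1 / 3 + ε) := ⟨_, rfl⟩
  have hx1 : 1 ≤ x := by
    rw [hx]
    exact Real.one_le_rpow hg1 (by linarith)
  have hx0 : 0 < x := by linarith
  obtain ⟨q, hq⟩ : ∃ q : ℕ, q = ⌈x⌉₊ := ⟨_, rfl⟩
  have hqx : x ≤ q := by rw [hq]; exact Nat.le_ceil x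
  have hqx2 : (q : ℝ) ≤ 2 * x := by
    have := (Nat.ceil_lt_add_one hx0.le).le
    rw [← hq] at this
    linarith
  have hqR : (1 : ℝ) ≤ q := hx1.trans hqx
  have hx3 : x ^ 3 = g * (g : ℝ) ^ (3 * ε) := by
    rw [hx, ← Real.rpow_natCast, ← Real.rpow_mul hg0.le]
    have : (1 / 3 + ε) * ((3 : ℕ) : ℝ) = 1 + 3 * ε := by push_cast; ring
    rw [this, Real.rpow_add hg0, Real.rpow_one]
  have hx2 : (g : ℝ) ^ (3 * ε) ≤ x ^ 2 := by
    rw [hx, ← Real.rpow_natCast, ← Real.rpow_mul hg0.le]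
    apply Real.rpow_le_rpow_of_exponent_le hg1
    push_cast
    linarith
  have h3ε0 : (0 : ℝ) < (g : ℝ) ^ (3 * ε) := Real.rpow_pos_of_pos hg0 _
  have h3ε : (224 : ℝ) ≤ (g : ℝ) ^ (3 * ε) :=
    hbigε.trans (Real.rpow_le_rpow_of_exponent_le hg1 (by linarith))
  have hq2 : 1 / (q : ℝ) ^ 2 ≤ 1 / (g : ℝ) ^ (3 * ε) := by
    apply one_div_le_one_div_of_le h3ε0
    exact hx2.trans (pow_le_pow_left₀ hx0.le hqx 2)
  have hq3 : g / (q : ℝ) ^ 3 ≤ 1 / (g : ℝ) ^ (3 * ε) := by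
    rw [div_le_div_iff₀ (by positivity) h3ε0, one_mul, ← hx3]
    exact pow_le_pow_left₀ hx0.le hqx 3
  have hinv : 1 / (g : ℝ) ^ (3 * ε) ≤ 1 / 224 := one_div_le_one_div_of_le (by norm_num) h3ε
  refine ⟨q, ?_, ?_, ?_, ?_, ?_, hbig⟩
  · exact_mod_cast hqR
  · have h1 : x ≤ (g : ℝ) ^ (2 / 3 : ℝ) := by
      rw [hx]
      exact Real.rpow_le_rpow_of_exponent_le hg1 (by linarith)
    have h2 : (2 : ℝ) ≤ (g : ℝ) ^ (1 / 3 : ℝ) := by
      have h3 : (8 : ℝ) ^ (1 / 3 : ℝ) ≤ (g : ℝ) ^ (1 / 3 : ℝ) :=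
        Real.rpow_le_rpow (by norm_num) (by exact_mod_cast hg8) (by norm_num)
      have h4 : (8 : ℝ) ^ (1 / 3 : ℝ) = 2 := by
        have : (8 : ℝ) = 2 ^ (3 : ℝ) := by norm_num
        rw [this, ← Real.rpow_mul (by norm_num)]
        norm_num
      rwa [h4] at h3
    have h3 : (q : ℝ) ≤ g := by
      calc (q : ℝ) ≤ 2 * x := hqx2
        _ ≤ (g : ℝ) ^ (1 / 3 : ℝ) * (g : ℝ) ^ (2 / 3 : ℝ) :=
            mul_le_mul h2 h1 hx0.le (by positivity)
        _ = g := by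
            rw [← Real.rpow_add hg0]
            norm_num
    exact_mod_cast h3
  · rw [← hx]
    exact hqx2
  · linarith
  · have h1 : 8 * g / (q : ℝ) ^ 3 ≤ 8 * (1 / (g : ℝ) ^ (3 * ε)) := by
      have := mul_le_mul_of_nonneg_left hq3 (by norm_num : (0 : ℝ) ≤ 8)
      calc 8 * g / (q : ℝ) ^ 3 = 8 * (g / (q : ℝ) ^ 3) := by ring
        _ ≤ _ := this
    have h2 : (g : ℝ) ^ (-(2 * ε)) = (g : ℝ) ^ ε * (1 / (g : ℝ) ^ (3 * ε)) := by
      rw [one_div, ← Real.rpow_neg hg0.le, ← Real.rpow_add hg0]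
      congr 1
      ring
    rw [h2]
    refine h1.trans ?_
    apply mul_le_mul_of_nonneg_right _ (by positivity)
    linarith

open Classical in
theorem tri_core (ε : ℝ) (hε : 0 < ε) (hε1 : ε ≤ 1 / 3) (K : ℕ) : ∃ δ : ℝ, 0 < δ ∧ ∃ g₀ : ℕ,
    ∀ g : ℕ, g₀ ≤ g → ∃ (Ξ : Type) (_ : Fintype Ξ) (μ : Ξ → ℝ) (x x' : Ξ → Cel g → ℕ × ℕ),
      (∀ ξ, 0 ≤ μ ξ) ∧ ∑ ξ, μ ξ = 1 ∧
      (∀ ξ, μ ξ ≠ 0 → EdgeList (5 * g ^ 2) (x ξ) ∧ ¬ HasTriangle (x ξ) ∧
        EdgeList (5 * g ^ 2) (x' ξ) ∧ HasTriangle (x' ξ)) ∧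
      ∀ T P : ℕ, 1 ≤ T → T * Real.log (Real.log g) ≤ δ * Real.log g →
        (P : ℝ) ≤ ((g : ℝ) ^ 2) ^ (4 / 3 - ε) → ∀ M : Machine (ℕ × ℕ) (Cel g) P,
        M.Lists (g ^ K) →
        ∑ ξ, μ ξ * (if M.result T (x ξ) ≠ M.result T (x' ξ) then (1 : ℝ) else 0) ≤
          (g : ℝ) ^ (-(ε / 3)) := by
  obtain ⟨δ, hδ, g₁, hpar⟩ := params (ε / 2) (by linarith) (K + 3) 4
  obtain ⟨r, hr⟩ : ∃ r : ℕ, r = ⌈5 / (2 * ε)⌉₊ := ⟨_, rfl⟩
  have hrε : 5 ≤ 2 * ε * ((r + 1 : ℕ) : ℝ) := by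
    have h1 : 5 / (2 * ε) ≤ r := by rw [hr]; exact Nat.le_ceil _
    rw [div_le_iff₀ (by positivity)] at h1
    push_cast
    nlinarith
  refine ⟨δ, hδ, max (max g₁ 8) (max (2 ^ (1 + 2 * r)) ⌈(224 : ℝ) ^ (6 / ε)⌉₊), ?_⟩
  intro g hg
  have hg1' : g₁ ≤ g := le_trans (le_trans (le_max_left _ _) (le_max_left _ _)) hg
  have hg8 : 8 ≤ g := le_trans (le_trans (le_max_right _ _) (le_max_left _ _)) hg
  have hgr : 2 ^ (1 + 2 * r) ≤ g := le_trans (le_trans (le_max_left _ _) (le_max_right _ _)) hg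
  have hgc : ⌈(224 : ℝ) ^ (6 / ε)⌉₊ ≤ g :=
    le_trans (le_trans (le_max_right _ _) (le_max_right _ _)) hg
  have hg1 : 1 ≤ g := by omega
  have hgR : (0 : ℝ) < g := by exact_mod_cast hg1
  have hgR1 : (1 : ℝ) ≤ g := by exact_mod_cast hg1
  obtain ⟨q, hq1, hqg, hq2, hqgood, hq8, hbig⟩ := tri_numbers hε hε1 hg8
    ((Nat.le_ceil _).trans (by exact_mod_cast hgc))
  have hqR : (0 : ℝ) < q := by exact_mod_cast hq1
  -- the weights
  obtain ⟨w, hw⟩ : ∃ w : Tri3 g → (Cel g → Fin q × Fin q) → (Fin q × (Fin q × Fin q)) → ℝ,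
    w = fun κ Z p => (∏ i, uq q (Z i)) * ((1 / (q : ℝ) ^ 3) *
      (if GdT κ (ypl p.1 p.2.1 p.2.2) Z then 1 else 0)) := ⟨_, rfl⟩
  have hprod : ∀ Z : Cel g → Fin q × Fin q, 0 ≤ ∏ i, uq q (Z i) :=
    fun Z => Finset.prod_nonneg fun i _ => uq0 _
  have hw0 : ∀ κ Z p, 0 ≤ w κ Z p := by
    intro κ Z p
    rw [hw]
    dsimp only
    apply mul_nonneg (hprod Z)
    apply mul_nonneg (by positivity)
    split_ifs <;> norm_num
  obtain ⟨N, hN⟩ : ∃ N : ℝ, N = ∑ κ, ∑ Z, ∑ p, w κ Z p := ⟨_, rfl⟩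
  have hcardK : (Fintype.card (Tri3 g) : ℝ) = (g : ℝ) ^ 3 := by
    rw [Fintype.card_prod, Fintype.card_prod, Fintype.card_fin]
    push_cast
    ring
  have hNg : (g : ℝ) ^ 3 / 2 ≤ N := by
    have h1 : ∀ κ : Tri3 g, 1 / 2 ≤ ∑ Z, ∑ p, w κ Z p := by
      intro κ
      have h2 : ∀ p : Fin q × (Fin q × Fin q), (1 / (q : ℝ) ^ 3) * (1 / 2) ≤
          ∑ Z, w κ Z p := by
        intro p
        have h3 : ∑ Z, w κ Z p = (1 / (q : ℝ) ^ 3) * Ex (uq q) (fun Z =>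
            if GdT κ (ypl p.1 p.2.1 p.2.2) Z then (1 : ℝ) else 0) := by
          rw [hw]
          unfold Ex
          rw [Finset.mul_sum]
          exact Finset.sum_congr rfl fun Z _ => by ring
        rw [h3]
        apply mul_le_mul_of_nonneg_left _ (by positivity)
        have h4 := gdT_prob hq1 κ (ypl p.1 p.2.1 p.2.2)
        have h5 : Ex (uq q) (fun Z : Cel g → Fin q × Fin q =>
              if GdT κ (ypl p.1 p.2.1 p.2.2) Z then (1 : ℝ) else 0) +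
            Ex (uq q) (fun Z : Cel g → Fin q × Fin q =>
              if ¬ GdT κ (ypl p.1 p.2.1 p.2.2) Z then (1 : ℝ) else 0) = 1 := by
          rw [← Ex_add]
          have h6 : (fun Z : Cel g → Fin q × Fin q =>
              (if GdT κ (ypl p.1 p.2.1 p.2.2) Z then (1 : ℝ) else 0) +
              (if ¬ GdT κ (ypl p.1 p.2.1 p.2.2) Z then (1 : ℝ) else 0)) = fun _ => 1 := by
            funext Z
            by_cases h : GdT κ (ypl p.1 p.2.1 p.2.2) Z
            · rw [if_pos h, if_neg (not_not.2 h), add_zero]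
            · rw [if_neg h, if_pos h, zero_add]
          rw [h6, Ex_const (uq1 hq1)]
        linarith
      rw [Finset.sum_comm]
      have h3 := Finset.card_nsmul_le_sum (univ : Finset (Fin q × (Fin q × Fin q))) _ _
        (fun p _ => h2 p)
      rw [Finset.card_univ, Fintype.card_prod, Fintype.card_prod, Fintype.card_fin,
        nsmul_eq_mul] at h3
      refine le_trans (le_of_eq ?_) h3
      push_cast
      field_simp
    have h2 := Finset.card_nsmul_le_sum (univ : Finset (Tri3 g)) _ _ (fun κ _ => h1 κ)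
    rw [Finset.card_univ, nsmul_eq_mul, hcardK] at h2
    rw [hN]
    linarith
  have hN0 : 0 < N := lt_of_lt_of_le (by positivity) hNg
  refine ⟨Tri3 g × ((Cel g → Fin q × Fin q) × (Fin q × (Fin q × Fin q))), inferInstance,
    fun ξ => (1 / N) * w ξ.1 ξ.2.1 ξ.2.2, fun ξ => enc g q ξ.2.1,
    fun ξ => pln g q ξ.1 (ypl ξ.2.2.1 ξ.2.2.2.1 ξ.2.2.2.2) ξ.2.1 univ, ?_, ?_, ?_, ?_⟩
  · intro ξ
    exact mul_nonneg (by positivity) (hw0 _ _ _)
  · rw [← Finset.mul_sum, Fintype.sum_prod_type]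
    have h1 : ∀ κ : Tri3 g, ∑ y : (Cel g → Fin q × Fin q) × (Fin q × (Fin q × Fin q)),
        w κ y.1 y.2 = ∑ Z, ∑ p, w κ Z p := fun κ => Fintype.sum_prod_type _
    dsimp only
    simp only [h1]
    rw [← hN]
    field_simp
  · intro ξ _
    exact ⟨val_edge hqg _ (fun c => enc_val _ c), enc_no _,
      val_edge hqg _ (fun c => pln_val _ _ _ _ c), pln_yes _ _ _ _ _⟩
  · intro T P hT hTg hP M hM
    obtain ⟨l, A, hl, hTl, hKl, hA, hsX, hX⟩ := hpar g T hg1' hT hTg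
    obtain ⟨X, hXdef⟩ : ∃ X, X = 192 * T * (3 * l + A) * l := ⟨_, rfl⟩
    rw [← hXdef] at hsX hX
    have hX1 : (1 : ℝ) ≤ X := by exact_mod_cast (by omega : 1 ≤ X)
    have hgK : g ^ K ≤ g ^ (K + 3) := Nat.pow_le_pow_right hg1 (by omega)
    have hg3K : g ^ 3 ≤ g ^ (K + 3) := Nat.pow_le_pow_right hg1 (by omega)
    have hPexp : ((g : ℝ) ^ 2) ^ (4 / 3 - ε) = (g : ℝ) ^ (8 / 3 - 2 * ε) := by
      rw [← Real.rpow_natCast, ← Real.rpow_mul hgR.le]
      congr 1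
      push_cast
      ring
    rw [hPexp] at hP
    have hPg : P ≤ g ^ 3 := by
      have h1 : (g : ℝ) ^ (8 / 3 - 2 * ε) ≤ (g : ℝ) ^ (3 : ℝ) :=
        Real.rpow_le_rpow_of_exponent_le hgR1 (by linarith)
      have h2 : (g : ℝ) ^ (3 : ℝ) = ((g ^ 3 : ℕ) : ℝ) := by
        rw [Nat.cast_pow, ← Real.rpow_natCast]
        norm_num
      have h3 := hP.trans h1
      rw [h2] at h3
      exact_mod_cast h3
    have hDg : 1 + 2 * r ≤ 3 * l + A := by
      have h1 : g ^ 1 ≤ g ^ (K + 3) := Nat.pow_le_pow_right hg1 (by omega)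
      rw [pow_one] at h1
      have h2 : 2 ^ (1 + 2 * r) < 2 ^ l := by omega
      have h3 := (Nat.pow_lt_pow_iff_right (by norm_num : 1 < 2)).1 h2
      omega
    have hmain := tri_count M hq1 (Kl := g ^ K) (l := l) (A := A) (T := T) (X := X) (r := r)
      hT hl hTl hM (by omega) (by omega) hXdef hsX hDg
    -- the bound
    have hδr : (g : ℝ) ^ 3 * ((g : ℝ) ^ 2 * (8 * g / (q : ℝ) ^ 3) ^ (r + 1)) ≤ 1 := by
      have h1 : (8 * g / (q : ℝ) ^ 3) ^ (r + 1) ≤ (g : ℝ) ^ (-(5 : ℝ)) := by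
        calc (8 * g / (q : ℝ) ^ 3) ^ (r + 1) ≤ ((g : ℝ) ^ (-(2 * ε))) ^ (r + 1) :=
              pow_le_pow_left₀ (by positivity) hq8 _
          _ = (g : ℝ) ^ (-(2 * ε) * ((r + 1 : ℕ) : ℝ)) := by
              rw [← Real.rpow_natCast, ← Real.rpow_mul hgR.le]
          _ ≤ (g : ℝ) ^ (-(5 : ℝ)) := by
              apply Real.rpow_le_rpow_of_exponent_le hgR1
              linarith
      calc (g : ℝ) ^ 3 * ((g : ℝ) ^ 2 * (8 * g / (q : ℝ) ^ 3) ^ (r + 1))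
          ≤ (g : ℝ) ^ 3 * ((g : ℝ) ^ 2 * (g : ℝ) ^ (-(5 : ℝ))) := by gcongr
        _ = 1 := by
            rw [Real.rpow_neg hgR.le]
            have : (g : ℝ) ^ (5 : ℝ) = (g : ℝ) ^ 5 := by
              rw [← Real.rpow_natCast]
              norm_num
            rw [this]
            field_simp
    have hsum : ∑ H ∈ univ.filter (fun H : Finset (Fin 3) => 1 ≤ H.card ∧ H.card ≤ 2),
        (X : ℝ) ^ (8 * T * H.card) *
        ((if H.card < 2 then (1 : ℝ) else ((P + Fintype.card (Cel g) : ℕ) : ℝ)) *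
          (BT g H.card : ℝ) +
        (Fintype.card (Tri3 g) : ℝ) * ((1 / 2) ^ A +
          (g : ℝ) ^ 2 * (8 * g / (q : ℝ) ^ 3) ^ (r + 1))) ≤
        8 * ((g : ℝ) ^ (ε / 2) * (P + 6 * (g : ℝ) ^ 2)) := by
      have hg2 : (g : ℝ) ≤ (g : ℝ) ^ 2 := by nlinarith
      have hg21 : (1 : ℝ) ≤ (g : ℝ) ^ 2 := by nlinarith
      have h1 : ∀ H ∈ univ.filter (fun H : Finset (Fin 3) => 1 ≤ H.card ∧ H.card ≤ 2),
          (X : ℝ) ^ (8 * T * H.card) *
          ((if H.card < 2 then (1 : ℝ) else ((P + Fintype.card (Cel g) : ℕ) : ℝ)) *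
            (BT g H.card : ℝ) +
          (Fintype.card (Tri3 g) : ℝ) * ((1 / 2) ^ A +
            (g : ℝ) ^ 2 * (8 * g / (q : ℝ) ^ 3) ^ (r + 1))) ≤
          (g : ℝ) ^ (ε / 2) * (P + 6 * (g : ℝ) ^ 2) := by
        intro H hH
        obtain ⟨hH1, hH2⟩ := (Finset.mem_filter.1 hH).2
        have h2 : (X : ℝ) ^ (8 * T * H.card) ≤ (g : ℝ) ^ (ε / 2) := by
          refine le_trans ?_ hX
          apply pow_le_pow_right₀ hX1
          exact Nat.mul_le_mul_left _ (by omega)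
        have h3 : (Fintype.card (Tri3 g) : ℝ) * ((1 / 2) ^ A +
            (g : ℝ) ^ 2 * (8 * g / (q : ℝ) ^ 3) ^ (r + 1)) ≤ 2 := by
          rw [hcardK, mul_add]
          have h4 : (g : ℝ) ^ 3 * (1 / 2) ^ A ≤ 1 := by
            rw [one_div_pow, mul_one_div, div_le_one (by positivity)]
            exact_mod_cast hg3K.trans hA
          linarith
        have hcJ : (Fintype.card (Cel g) : ℝ) = 3 * (g : ℝ) ^ 2 := by
          rw [Fintype.card_prod, Fintype.card_prod, Fintype.card_fin, Fintype.card_fin]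
          push_cast
          ring
        have h4 : (if H.card < 2 then (1 : ℝ) else ((P + Fintype.card (Cel g) : ℕ) : ℝ)) *
            (BT g H.card : ℝ) ≤ P + 4 * (g : ℝ) ^ 2 := by
          have hPR : (0 : ℝ) ≤ P := Nat.cast_nonneg P
          by_cases hc : H.card < 2
          · have hc1 : H.card = 1 := by omega
            rw [if_pos hc, one_mul]
            unfold BT
            rw [if_pos hc1]
            linarith
          · have hc1 : H.card ≠ 1 := by omega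
            rw [if_neg hc]
            unfold BT
            rw [if_neg hc1, Nat.cast_one, mul_one]
            push_cast [hcJ]
            linarith
        exact mul_le_mul h2 (by linarith) (by positivity) (by positivity)
      refine (Finset.sum_le_card_nsmul _ _ _ h1).trans ?_
      rw [nsmul_eq_mul]
      apply mul_le_mul_of_nonneg_right _ (by positivity)
      have h2 : (univ.filter (fun H : Finset (Fin 3) =>
          1 ≤ H.card ∧ H.card ≤ 2)).card ≤ 8 := by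
        refine (Finset.card_le_univ _).trans ?_
        rw [Fintype.card_finset, Fintype.card_fin]
        norm_num
      exact_mod_cast h2
    have hP6 : (P : ℝ) + 6 * (g : ℝ) ^ 2 ≤ 7 * (g : ℝ) ^ (8 / 3 - 2 * ε) := by
      have h1 : (g : ℝ) ^ 2 ≤ (g : ℝ) ^ (8 / 3 - 2 * ε) := by
        rw [← Real.rpow_natCast]
        apply Real.rpow_le_rpow_of_exponent_le hgR1
        push_cast
        linarith
      linarith
    -- the sum over the pairs
    have hsumξ : ∑ ξ : Tri3 g × ((Cel g → Fin q × Fin q) × (Fin q × (Fin q × Fin q))),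
        (1 / N) * w ξ.1 ξ.2.1 ξ.2.2 * (if M.result T (enc g q ξ.2.1) ≠
          M.result T (pln g q ξ.1 (ypl ξ.2.2.1 ξ.2.2.2.1 ξ.2.2.2.2) ξ.2.1 univ)
          then (1 : ℝ) else 0) = (1 / N) * ∑ κ : Tri3 g, Ex (uq q)
            (fun Z : Cel g → Fin q × Fin q => (1 / (q : ℝ) ^ 3) * ∑ p, evt M T κ Z p) := by
      rw [Fintype.sum_prod_type, Finset.mul_sum]
      refine Finset.sum_congr rfl fun κ _ => ?_
      rw [Fintype.sum_prod_type]
      unfold Ex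
      rw [Finset.mul_sum]
      refine Finset.sum_congr rfl fun Z _ => ?_
      dsimp only
      rw [Finset.mul_sum, Finset.mul_sum, Finset.mul_sum]
      refine Finset.sum_congr rfl fun p _ => ?_
      rw [hw]
      dsimp only
      unfold evt
      by_cases h1 : GdT κ (ypl p.1 p.2.1 p.2.2) Z
      · by_cases h2 : M.result T (enc g q Z) ≠
          M.result T (pln g q κ (ypl p.1 p.2.1 p.2.2) Z univ)
        · rw [if_pos h1, if_pos h2, if_pos ⟨h1, h2⟩]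
          ring
        · rw [if_pos h1, if_neg h2, if_neg (fun h => h2 h.2)]
          ring
      · rw [if_neg h1, if_neg (fun h : GdT κ (ypl p.1 p.2.1 p.2.2) Z ∧ _ => h1 h.1)]
        ring
    dsimp only
    rw [hsumξ]
    have hEx0 : 0 ≤ ∑ κ : Tri3 g, Ex (uq q) (fun Z : Cel g → Fin q × Fin q =>
        (1 / (q : ℝ) ^ 3) * ∑ p, evt M T κ Z p) := by
      refine Finset.sum_nonneg fun κ _ => Ex_nonneg uq0 fun Z => ?_
      apply mul_nonneg (by positivity)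
      refine Finset.sum_nonneg fun p _ => ?_
      unfold evt
      split_ifs <;> norm_num
    have hNinv : 1 / N ≤ 2 / (g : ℝ) ^ 3 := by
      rw [div_le_div_iff₀ hN0 (by positivity)]
      linarith
    calc (1 / N) * ∑ κ : Tri3 g, Ex (uq q) (fun Z : Cel g → Fin q × Fin q =>
        (1 / (q : ℝ) ^ 3) * ∑ p, evt M T κ Z p)
        ≤ (2 / (g : ℝ) ^ 3) * (q * (8 * ((g : ℝ) ^ (ε / 2) * (P + 6 * (g : ℝ) ^ 2)))) := by
          apply mul_le_mul hNinv _ hEx0 (by positivity)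
          exact hmain.trans (mul_le_mul_of_nonneg_left hsum (Nat.cast_nonneg _))
      _ ≤ (2 / (g : ℝ) ^ 3) * ((2 * (g : ℝ) ^ (1 / 3 + ε)) * (8 * ((g : ℝ) ^ (ε / 2) *
          (7 * (g : ℝ) ^ (8 / 3 - 2 * ε))))) := by gcongr
      _ = 224 * (g : ℝ) ^ (-(ε / 2)) := by
          have h1 : (g : ℝ) ^ (1 / 3 + ε) * ((g : ℝ) ^ (ε / 2) * (g : ℝ) ^ (8 / 3 - 2 * ε)) =
              (g : ℝ) ^ (-(ε / 2)) * (g : ℝ) ^ 3 := by
            rw [← Real.rpow_natCast (g : ℝ) 3, ← Real.rpow_add hgR, ← Real.rpow_add hgR,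
              ← Real.rpow_add hgR]
            congr 1
            push_cast
            ring
          calc (2 / (g : ℝ) ^ 3) * ((2 * (g : ℝ) ^ (1 / 3 + ε)) * (8 * ((g : ℝ) ^ (ε / 2) *
              (7 * (g : ℝ) ^ (8 / 3 - 2 * ε))))) = 224 / (g : ℝ) ^ 3 *
              ((g : ℝ) ^ (1 / 3 + ε) * ((g : ℝ) ^ (ε / 2) * (g : ℝ) ^ (8 / 3 - 2 * ε))) := by ring
            _ = 224 / (g : ℝ) ^ 3 * ((g : ℝ) ^ (-(ε / 2)) * (g : ℝ) ^ 3) := by rw [h1]
            _ = 224 * (g : ℝ) ^ (-(ε / 2)) := by field_simp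
      _ ≤ (g : ℝ) ^ (ε / 6) * (g : ℝ) ^ (-(ε / 2)) :=
          mul_le_mul_of_nonneg_right hbig (by positivity)
      _ = (g : ℝ) ^ (-(ε / 3)) := by
          rw [← Real.rpow_add hgR]
          congr 1
          ring

end Pool.Agent.W964.Wd
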